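import Pool.Agent.helper74.VD.SpecA2

/-!
# Project VD (MP_07c750_an), block A2: row AGSD

The Gaussian factor of a beam.
-/

set_option autoImplicit false

open scoped ContDiff Topology InnerProductSpace ComplexConjugate ENNReal
open MeasureTheory Filter Set

namespace Pool.Agent.VD

open Pool.Agent.VQ (CH)

noncomputable section

variable {d : ℕ}

/-- the derivatives of the exponential function -/
lemma AGSD_exp (n : ℕ) (z : ℂ) : ‖iteratedFDeriv ℝ n Complex.exp z‖ ≤ ‖Complex.exp z‖ := by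
  induction n with
  | zero => simp
  | succ n ih =>
    rw [← norm_iteratedFDeriv_fderiv]
    have e : fderiv ℝ Complex.exp = (ContinuousLinearMap.mul ℝ ℂ) ∘ Complex.exp := by
      funext w
      have h := (Complex.hasStrictFDerivAt_exp_real w).hasFDerivAt.fderiv
      rw [h]
      ext
      simp
    rw [e]
    refine ((ContinuousLinearMap.mul ℝ ℂ).norm_iteratedFDeriv_comp_left (N := ∞)
      (Complex.contDiff_exp (𝕜 := ℝ)).contDiffAt (by exact_mod_cast le_top)).trans ?_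
    have h1 : ‖ContinuousLinearMap.mul ℝ ℂ‖ ≤ 1 := ContinuousLinearMap.opNorm_mul_le ℝ ℂ
    calc ‖ContinuousLinearMap.mul ℝ ℂ‖ * ‖iteratedFDeriv ℝ n Complex.exp z‖ ≤ 1 * ‖iteratedFDeriv ℝ n Complex.exp z‖ :=
          mul_le_mul_of_nonneg_right h1 (norm_nonneg _)
      _ ≤ ‖Complex.exp z‖ := by rw [one_mul]; exact ih

/-- coordinates -/
lemma AGSD_lin (i : Fin d) (v : V d) (n : ℕ) :
    ‖iteratedFDeriv ℝ n (fun w : V d => ((w i : ℝ) : ℂ)) v‖ ≤ (if n = 0 then ‖v‖ else if n = 1 then 1 else 0) := by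
  have hcoord : ∀ w : V d, ‖((w i : ℝ) : ℂ)‖ ≤ ‖w‖ := fun w => by
    rw [Complex.norm_real]
    exact PiLp.norm_apply_le w i
  set L : V d →L[ℝ] ℂ := Complex.ofRealCLM.comp (EuclideanSpace.proj i) with hLd
  have hL : (fun w : V d => ((w i : ℝ) : ℂ)) = L := rfl
  have hn : ‖L‖ ≤ 1 := by
    refine ContinuousLinearMap.opNorm_le_bound _ zero_le_one fun w => ?_
    rw [one_mul]
    exact hcoord w
  rw [hL]
  rcases n with _ | n
  · simp only [norm_iteratedFDeriv_zero, if_true]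
    exact hcoord v
  · rw [← norm_iteratedFDeriv_fderiv]
    have h1 : fderiv ℝ (L : V d → ℂ) = fun _ => L := by
      funext w
      exact L.fderiv
    rw [h1]
    rcases n with _ | n
    · simpa using hn
    · rw [iteratedFDeriv_succ_const]
      simp

lemma AGSD_cdl (i : Fin d) : ContDiff ℝ ∞ (fun w : V d => ((w i : ℝ) : ℂ)) :=
  (Complex.ofRealCLM.comp (EuclideanSpace.proj (𝕜 := ℝ) i) : V d →L[ℝ] ℂ).contDiff

/-- the bound of the derivatives of a quadratic form -/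
def AGSD_q (n : ℕ) (r : ℝ) : ℝ := if n = 1 then 2 * r else if n = 2 then 2 else 0

lemma AGSD_mul (i j : Fin d) (v : V d) (n : ℕ) (hn : 1 ≤ n) :
    ‖iteratedFDeriv ℝ n (fun w : V d => ((w i : ℝ) : ℂ) * ((w j : ℝ) : ℂ)) v‖ ≤ AGSD_q n ‖v‖ := by
  refine (norm_iteratedFDeriv_mul_le (AGSD_cdl i) (AGSD_cdl j) v (n := n) (by exact_mod_cast le_top)).trans ?_
  have hv := norm_nonneg v
  have key : ∀ k ∈ Finset.range (n + 1), (n.choose k : ℝ) * ‖iteratedFDeriv ℝ k (fun w : V d => ((w i : ℝ) : ℂ)) v‖ *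
      ‖iteratedFDeriv ℝ (n - k) (fun w : V d => ((w j : ℝ) : ℂ)) v‖ ≤
      (n.choose k : ℝ) * (if k = 0 then ‖v‖ else if k = 1 then 1 else 0) * (if n - k = 0 then ‖v‖ else if n - k = 1 then 1 else 0) := by
    intro k _
    have h1 := AGSD_lin i v k
    have h2 := AGSD_lin j v (n - k)
    have h3 : (0 : ℝ) ≤ n.choose k := by positivity
    exact mul_le_mul (mul_le_mul_of_nonneg_left h1 h3) h2 (norm_nonneg _) (mul_nonneg h3 ((norm_nonneg _).trans h1))
  refine (Finset.sum_le_sum key).trans ?_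
  unfold AGSD_q
  rcases Nat.lt_or_ge n 3 with h | h
  · interval_cases n
    · simp [Finset.sum_range_succ]
      linarith
    · simp [Finset.sum_range_succ]
  · rw [if_neg (by omega), if_neg (by omega)]
    refine le_of_eq (Finset.sum_eq_zero fun k hk => ?_)
    by_cases h1 : k ≤ 1
    · have h2 : n - k ≠ 0 := by omega
      have h3 : n - k ≠ 1 := by omega
      rw [if_neg h2, if_neg h3, mul_zero]
    · have h2 : k ≠ 0 := by omega
      have h3 : k ≠ 1 := by omega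
      rw [if_neg h2, if_neg h3, mul_zero, zero_mul]

lemma AGSD_q_nonneg (n : ℕ) {r : ℝ} (hr : 0 ≤ r) : 0 ≤ AGSD_q n r := by
  unfold AGSD_q
  split_ifs <;> linarith

/-- functions whose derivatives at `v` are bounded as those of a quadratic form -/
def AGSD_bd (v : V d) (f : V d → ℂ) (m : ℝ) : Prop :=
  ContDiff ℝ ∞ f ∧ ∀ n, 1 ≤ n → ‖iteratedFDeriv ℝ n f v‖ ≤ m * AGSD_q n ‖v‖

lemma AGSD_bd_mono {v : V d} {f : V d → ℂ} {m m' : ℝ} (h : AGSD_bd v f m) (hm : m ≤ m') : AGSD_bd v f m' :=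
  ⟨h.1, fun n hn => (h.2 n hn).trans (mul_le_mul_of_nonneg_right hm (AGSD_q_nonneg n (norm_nonneg v)))⟩

lemma AGSD_bd_add {v : V d} {f g : V d → ℂ} {m m' : ℝ} (h : AGSD_bd v f m) (h' : AGSD_bd v g m') :
    AGSD_bd v (fun w => f w + g w) (m + m') := by
  refine ⟨h.1.add h'.1, fun n hn => ?_⟩
  have e : iteratedFDeriv ℝ n (fun w => f w + g w) v = iteratedFDeriv ℝ n f v + iteratedFDeriv ℝ n g v :=
    iteratedFDeriv_add_apply (h.1.contDiffAt.of_le (by exact_mod_cast le_top)) (h'.1.contDiffAt.of_le (by exact_mod_cast le_top))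
  rw [e, add_mul]
  exact (norm_add_le _ _).trans (add_le_add (h.2 n hn) (h'.2 n hn))

lemma AGSD_bd_smul {v : V d} {f : V d → ℂ} {m : ℝ} (h : AGSD_bd v f m) (a : ℂ) :
    AGSD_bd v (fun w => a * f w) (‖a‖ * m) := by
  refine ⟨contDiff_const.mul h.1, fun n hn => ?_⟩
  have e : iteratedFDeriv ℝ n (fun w => a * f w) v = a • iteratedFDeriv ℝ n f v :=
    iteratedFDeriv_const_smul_apply (a := a) (h.1.contDiffAt.of_le (by exact_mod_cast le_top))
  rw [e, norm_smul, mul_assoc]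
  exact mul_le_mul_of_nonneg_left (h.2 n hn) (norm_nonneg a)

lemma AGSD_bd_sum {ι : Type} (s : Finset ι) {v : V d} {f : ι → V d → ℂ} {m : ι → ℝ} (h : ∀ i ∈ s, AGSD_bd v (f i) (m i)) :
    AGSD_bd v (fun w => ∑ i ∈ s, f i w) (∑ i ∈ s, m i) := by
  classical
  induction s using Finset.induction_on with
  | empty =>
    simp only [Finset.sum_empty]
    refine ⟨contDiff_const, fun n hn => ?_⟩
    rw [iteratedFDeriv_const_of_ne (by omega)]
    simp
  | insert a s ha ih =>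
    have h1 := AGSD_bd_add (h a (Finset.mem_insert_self a s)) (ih fun i hi => h i (Finset.mem_insert_of_mem hi))
    simp only [Finset.sum_insert ha]
    exact h1

/-- the exponent -/
lemma AGSD_psi (M : MC d) (A R : ℝ) (hA : ∀ i j, ‖M i j‖ ≤ A) (hR : 0 ≤ R) (v : V d) :
    AGSD_bd v (fun v : V d => Complex.I * (R : ℂ) * (qf M v / 2)) (R * ((d : ℝ) ^ 2 * A)) := by
  have e : (fun v : V d => Complex.I * (R : ℂ) * (qf M v / 2)) =
      fun v : V d => ∑ i : Fin d, ∑ j : Fin d, (Complex.I * (R : ℂ) * M i j / 2) * (((v i : ℝ) : ℂ) * ((v j : ℝ) : ℂ)) := by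
    funext v
    unfold qf
    rw [Finset.sum_div, Finset.mul_sum]
    refine Finset.sum_congr rfl fun i _ => ?_
    rw [Finset.sum_div, Finset.mul_sum]
    refine Finset.sum_congr rfl fun j _ => ?_
    push_cast
    ring
  rw [e]
  have h1 : ∀ i j : Fin d, AGSD_bd v (fun v : V d => (Complex.I * (R : ℂ) * M i j / 2) * (((v i : ℝ) : ℂ) * ((v j : ℝ) : ℂ))) (R * A) := by
    intro i j
    have h2 : AGSD_bd v (fun v : V d => (((v i : ℝ) : ℂ) * ((v j : ℝ) : ℂ))) 1 :=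
      ⟨(AGSD_cdl i).mul (AGSD_cdl j), fun n hn => by rw [one_mul]; exact AGSD_mul i j v n hn⟩
    refine AGSD_bd_mono (AGSD_bd_smul h2 (Complex.I * (R : ℂ) * M i j / 2)) ?_
    have h3 : ‖Complex.I * (R : ℂ) * M i j / 2‖ = R * ‖M i j‖ / 2 := by
      simp [abs_of_nonneg hR]
    rw [h3, mul_one]
    have h4 := mul_le_mul_of_nonneg_left (hA i j) hR
    have h5 : 0 ≤ R * ‖M i j‖ := by positivity
    linarith
  have h2 := AGSD_bd_sum (Finset.univ : Finset (Fin d)) fun i _ => AGSD_bd_sum (Finset.univ : Finset (Fin d)) fun j _ => h1 i j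
  refine AGSD_bd_mono h2 (le_of_eq ?_)
  simp only [Finset.sum_const, Finset.card_univ, Fintype.card_fin, nsmul_eq_mul]
  ring

/-- the imaginary part of `P Y⁻¹` -/
lemma AGSD_im (L : ℝ) (Y P : MC d) (hdet : Y.det ≠ 0) (h : Lag L Y P) (w : V d) :
    ‖w‖ ^ 2 ≤ ((d : ℝ) * L) ^ 2 * (qf (P * Y⁻¹) w).im := by
  set wc : Fin d → ℂ := fun i => ((w i : ℝ) : ℂ) with hwc
  set u : Fin d → ℂ := Matrix.mulVec Y⁻¹ wc with hu
  have hYu : Matrix.mulVec Y u = wc := by
    rw [hu, Matrix.mulVec_mulVec, Matrix.mul_nonsing_inv _ (isUnit_iff_ne_zero.2 hdet), Matrix.one_mulVec]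
  have hq : qf (P * Y⁻¹) w = dotProduct (star (Matrix.mulVec Y u)) (Matrix.mulVec P u) := by
    have h1 : qf (P * Y⁻¹) w = dotProduct wc (Matrix.mulVec (P * Y⁻¹) wc) := by
      unfold qf dotProduct Matrix.mulVec dotProduct
      refine Finset.sum_congr rfl fun i _ => ?_
      rw [Finset.mul_sum]
      refine Finset.sum_congr rfl fun j _ => ?_
      simp only [hwc]
      push_cast
      ring
    have h2 : star (Matrix.mulVec Y u) = wc := by
      rw [hYu]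
      funext i
      simp [hwc]
    rw [h1, h2, hu, Matrix.mulVec_mulVec]
  have hz1 : dotProduct (star (Matrix.mulVec Y u)) (Matrix.mulVec P u) = dotProduct (star u) (Matrix.mulVec (Y.conjTranspose * P) u) := by
    rw [Matrix.star_mulVec, ← Matrix.dotProduct_mulVec, Matrix.mulVec_mulVec]
  have hz2 : star (dotProduct (star (Matrix.mulVec Y u)) (Matrix.mulVec P u)) = dotProduct (star u) (Matrix.mulVec (P.conjTranspose * Y) u) := by
    rw [← Matrix.star_dotProduct, Matrix.star_mulVec, ← Matrix.dotProduct_mulVec, Matrix.mulVec_mulVec]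
  have hsum : dotProduct (star u) u = ((∑ j, ‖u j‖ ^ 2 : ℝ) : ℂ) := by
    unfold dotProduct
    push_cast
    refine Finset.sum_congr rfl fun j _ => ?_
    have h3 := Complex.conj_mul' (u j)
    exact h3
  have him : (qf (P * Y⁻¹) w).im = ∑ j, ‖u j‖ ^ 2 := by
    have h4 : qf (P * Y⁻¹) w - star (qf (P * Y⁻¹) w) = (2 * Complex.I) * ((∑ j, ‖u j‖ ^ 2 : ℝ) : ℂ) := by
      rw [hq, hz2, hz1, ← dotProduct_sub, ← Matrix.sub_mulVec, h.pos, Matrix.smul_mulVec, Matrix.one_mulVec, dotProduct_smul, hsum, smul_eq_mul]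
    have h5 : qf (P * Y⁻¹) w - star (qf (P * Y⁻¹) w) = ((2 * (qf (P * Y⁻¹) w).im : ℝ) : ℂ) * Complex.I := Complex.sub_conj _
    rw [h5] at h4
    have h6 := congrArg Complex.im h4
    simp only [Complex.mul_im, Complex.ofReal_re, Complex.ofReal_im, Complex.I_im, Complex.I_re, Complex.mul_re, Complex.re_ofNat, Complex.im_ofNat] at h6
    linarith
  rw [him, EuclideanSpace.norm_sq_eq]
  have hS : (∑ j, ‖u j‖) ^ 2 ≤ (d : ℝ) * ∑ j, ‖u j‖ ^ 2 := by
    have h7 := sq_sum_le_card_mul_sum_sq (s := (Finset.univ : Finset (Fin d))) (f := fun j => ‖u j‖)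
    simpa using h7
  have hwi : ∀ i, ‖w i‖ ^ 2 ≤ L ^ 2 * ((d : ℝ) * ∑ j, ‖u j‖ ^ 2) := by
    intro i
    have h8 : ‖w i‖ ≤ L * ∑ j, ‖u j‖ := by
      have h9 : ‖w i‖ = ‖Matrix.mulVec Y u i‖ := by
        rw [hYu]
        simp [hwc]
      rw [h9]
      unfold Matrix.mulVec dotProduct
      refine (norm_sum_le _ _).trans ?_
      rw [Finset.mul_sum]
      refine Finset.sum_le_sum fun j _ => ?_
      rw [norm_mul]
      exact mul_le_mul_of_nonneg_right (h.bdY i j) (norm_nonneg _)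
    calc ‖w i‖ ^ 2 ≤ (L * ∑ j, ‖u j‖) ^ 2 := pow_le_pow_left₀ (norm_nonneg _) h8 2
      _ = L ^ 2 * (∑ j, ‖u j‖) ^ 2 := by ring
      _ ≤ L ^ 2 * ((d : ℝ) * ∑ j, ‖u j‖ ^ 2) := mul_le_mul_of_nonneg_left hS (by positivity)
  calc ∑ i, ‖w i‖ ^ 2 ≤ ∑ _i : Fin d, L ^ 2 * ((d : ℝ) * ∑ j, ‖u j‖ ^ 2) := Finset.sum_le_sum fun i _ => hwi i
    _ = ((d : ℝ) * L) ^ 2 * ∑ j, ‖u j‖ ^ 2 := by
      rw [Finset.sum_const, Finset.card_univ, Fintype.card_fin, nsmul_eq_mul]
      ring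

lemma AGSD_asy (a ζ B K : ℝ) (ha : 0 < a) (hζ : 0 < ζ) : ∀ᶠ R : ℝ in atTop, K * R ^ B * Real.exp (-(a * R ^ ζ)) ≤ 1 := by
  have h1 := (tendsto_rpow_mul_exp_neg_mul_atTop_nhds_zero (B / ζ) a ha).comp (tendsto_rpow_atTop hζ)
  have h2 := h1.const_mul K
  rw [mul_zero] at h2
  have h3 := h2.eventually (ge_mem_nhds (zero_lt_one))
  filter_upwards [h3, eventually_gt_atTop (0 : ℝ)] with R hR h0
  simp only [Function.comp] at hR
  rw [← Real.rpow_mul h0.le, mul_div_cancel₀ _ hζ.ne'] at hR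
  calc K * R ^ B * Real.exp (-(a * R ^ ζ)) = K * (R ^ B * Real.exp (-a * R ^ ζ)) := by rw [neg_mul]; ring
    _ ≤ 1 := hR

/-- **AGSD.** The Gaussian factor. -/
theorem AGSD_proof (hALSY : ALSY_stmt) : AGSD_stmt := by
  intro d
  obtain ⟨C0, hC0, _, hS, _⟩ := hALSY d 1
  refine ⟨4, by norm_num, fun Kd e ζ c M he hζ he' hζ' hc hc1 => ?_⟩
  set a : ℝ := c ^ 2 / (2 * ((d : ℝ) + 1) ^ 2) with ha
  have ha0 : 0 < a := by positivity
  have ev1 := AGSD_asy a ζ (2 * Kd + M) (Kd.factorial) ha0 hζ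
  have ev2 := (tendsto_rpow_atTop hζ).eventually_ge_atTop (max (Kd.factorial : ℝ) (2 * ((d : ℝ) ^ 2 * C0) * c⁻¹))
  obtain ⟨R0, hR0⟩ := eventually_atTop.1 (ev1.and ev2)
  refine ⟨max 1 R0, le_max_left _ _, fun R Y0 P0 hR hLag => ?_⟩
  have hR1 : 1 ≤ R := (le_max_left _ _).trans hR
  have hRp : 0 < R := by linarith
  obtain ⟨h1, h2⟩ := hR0 R ((le_max_right _ _).trans hR)
  have h2a : (Kd.factorial : ℝ) ≤ R ^ ζ := (le_max_left _ _).trans h2
  have h2b : 2 * ((d : ℝ) ^ 2 * C0) * c⁻¹ ≤ R ^ ζ := (le_max_right _ _).trans h2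
  have hci : 1 ≤ c⁻¹ := (one_le_inv₀ hc).2 hc1
  have h2c : 2 * ((d : ℝ) ^ 2 * C0) ≤ R ^ ζ := by
    have h3 : (0 : ℝ) ≤ 2 * ((d : ℝ) ^ 2 * C0) := by positivity
    exact (le_mul_of_one_le_right h3 hci).trans h2b
  have hRe : 1 ≤ R ^ e := Real.one_le_rpow hR1 he
  obtain ⟨hdet, _, _, hpos, hMb⟩ := hS (R ^ e) Y0 P0 hRe hLag
  have him := AGSD_im (R ^ e) Y0 P0 hdet hLag
  set Mm : MC d := P0 * Y0⁻¹ with hMm
  set N : ℝ := R ^ (1 / 2 + 4 * ζ) with hN
  have hN1 : 1 ≤ N := Real.one_le_rpow hR1 (by positivity)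
  have hre2 : (R ^ e) ^ 2 = R ^ (2 * e) := by
    rw [← Real.rpow_natCast, ← Real.rpow_mul hRp.le]
    congr 1
    push_cast
    ring
  -- pointwise bound
  have key : ∀ v : V d, ‖v‖ ≤ c⁻¹ * R ^ (-(1 / 2) + ζ) → ∀ k ≤ Kd,
      ‖iteratedFDeriv ℝ k (fun v : V d => Complex.exp (Complex.I * (R : ℂ) * (qf Mm v / 2))) v‖ ≤
        Kd.factorial * ‖Complex.exp (Complex.I * (R : ℂ) * (qf Mm v / 2))‖ * N ^ k := by
    intro v hv k hk
    obtain ⟨hcd, hbd⟩ := AGSD_psi Mm (C0 * (R ^ e) ^ 2) R hMb hRp.le v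
    have h := norm_iteratedFDeriv_comp_le (𝕜 := ℝ) (g := Complex.exp) (f := fun v : V d => Complex.I * (R : ℂ) * (qf Mm v / 2)) (n := k) (N := ∞)
      Complex.contDiff_exp hcd (by exact_mod_cast le_top) v (C := ‖Complex.exp (Complex.I * (R : ℂ) * (qf Mm v / 2))‖) (D := N)
      (fun i _ => AGSD_exp i _) (fun i hi hik => by
        refine (hbd i hi).trans ?_
        rw [hre2]
        unfold AGSD_q
        rcases Nat.lt_or_ge i 3 with h | h
        · interval_cases i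
          · rw [if_pos rfl, pow_one]
            have h5 : R * ((d : ℝ) ^ 2 * (C0 * R ^ (2 * e))) * (2 * ‖v‖) ≤ R * ((d : ℝ) ^ 2 * (C0 * R ^ (2 * e))) * (2 * (c⁻¹ * R ^ (-(1 / 2) + ζ))) := by
              have h6 : 0 ≤ R * ((d : ℝ) ^ 2 * (C0 * R ^ (2 * e))) := by positivity
              exact mul_le_mul_of_nonneg_left (by linarith) h6
            refine h5.trans ?_
            calc R * ((d : ℝ) ^ 2 * (C0 * R ^ (2 * e))) * (2 * (c⁻¹ * R ^ (-(1 / 2) + ζ)))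
                = (2 * ((d : ℝ) ^ 2 * C0) * c⁻¹) * (R * (R ^ (2 * e) * R ^ (-(1 / 2) + ζ))) := by ring
              _ ≤ R ^ ζ * (R * (R ^ (2 * e) * R ^ (-(1 / 2) + ζ))) := mul_le_mul_of_nonneg_right h2b (by positivity)
              _ = R ^ (ζ + (1 + (2 * e + (-(1 / 2) + ζ)))) := by
                rw [Real.rpow_add hRp ζ, Real.rpow_add hRp 1, Real.rpow_add hRp (2 * e), Real.rpow_one]
              _ ≤ N := Real.rpow_le_rpow_of_exponent_le hR1 (by linarith)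
          · rw [if_neg (by norm_num), if_pos rfl]
            calc R * ((d : ℝ) ^ 2 * (C0 * R ^ (2 * e))) * 2
                = (2 * ((d : ℝ) ^ 2 * C0)) * (R * R ^ (2 * e)) := by ring
              _ ≤ R ^ ζ * (R * R ^ (2 * e)) := mul_le_mul_of_nonneg_right h2c (by positivity)
              _ = R ^ (ζ + (1 + 2 * e)) := by
                rw [Real.rpow_add hRp ζ, Real.rpow_add hRp 1, Real.rpow_one]
              _ ≤ R ^ ((1 / 2 + 4 * ζ) * 2) := Real.rpow_le_rpow_of_exponent_le hR1 (by linarith)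
              _ = N ^ 2 := by rw [hN, ← Real.rpow_natCast (R ^ (1 / 2 + 4 * ζ)), ← Real.rpow_mul hRp.le]; norm_num
        · rw [if_neg (by omega), if_neg (by omega), mul_zero]
          positivity)
    refine h.trans ?_
    have h7 : (k.factorial : ℝ) ≤ Kd.factorial := by exact_mod_cast Nat.factorial_le hk
    gcongr
  have hexp : ∀ v : V d, ‖Complex.exp (Complex.I * (R : ℂ) * (qf Mm v / 2))‖ = Real.exp (-(R / 2 * (qf Mm v).im)) := by
    intro v
    rw [Complex.norm_exp]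
    congr 1
    have h8 : Complex.I * (R : ℂ) * (qf Mm v / 2) = ((R / 2 : ℝ) : ℂ) * (Complex.I * qf Mm v) := by
      push_cast
      ring
    rw [h8, Complex.re_ofReal_mul, Complex.I_mul_re]
    ring
  have hcdall : ContDiff ℝ ∞ (fun v : V d => Complex.exp (Complex.I * (R : ℂ) * (qf Mm v / 2))) :=
    (AGSD_psi Mm (C0 * (R ^ e) ^ 2) R hMb hRp.le 0).1.cexp
  refine ⟨fun v hv => ⟨hcdall.contDiffAt, fun k hk => ?_⟩, fun v hv1 hv2 k hk => ?_⟩
  · refine (key v hv k hk).trans ?_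
    have h9 : ‖Complex.exp (Complex.I * (R : ℂ) * (qf Mm v / 2))‖ ≤ 1 := by
      rw [hexp, Real.exp_le_one_iff]
      have h10 := hpos v
      have h11 : 0 ≤ R / 2 * (qf Mm v).im := by positivity
      linarith
    have h12 : (Kd.factorial : ℝ) * ‖Complex.exp (Complex.I * (R : ℂ) * (qf Mm v / 2))‖ ≤ R ^ ζ * 1 :=
      mul_le_mul h2a h9 (norm_nonneg _) (by positivity)
    rw [mul_one] at h12
    exact mul_le_mul_of_nonneg_right h12 (by positivity)
  · refine (key v hv2 k hk).trans ?_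
    have hv0 : 0 ≤ c * R ^ (-(1 / 2) + ζ) := by positivity
    -- the exponent
    have h13 : a * R ^ ζ ≤ R / 2 * (qf Mm v).im := by
      have h14 : ‖v‖ ^ 2 ≤ (((d : ℝ) + 1) * R ^ e) ^ 2 * (qf Mm v).im := by
        refine (him v).trans (mul_le_mul_of_nonneg_right ?_ (hpos v))
        gcongr
        linarith
      have h15 : (c * R ^ (-(1 / 2) + ζ)) ^ 2 ≤ (((d : ℝ) + 1) * R ^ e) ^ 2 * (qf Mm v).im :=
        (pow_le_pow_left₀ hv0 hv1 2).trans h14
      have h16 : (c * R ^ (-(1 / 2) + ζ)) ^ 2 = c ^ 2 * R ^ (-1 + 2 * ζ) := by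
        rw [mul_pow]
        congr 1
        rw [← Real.rpow_natCast, ← Real.rpow_mul hRp.le]
        congr 1
        push_cast
        ring
      rw [h16, mul_pow, hre2] at h15
      have h17 : R ^ ζ * R ^ (2 * e) ≤ R * R ^ (-1 + 2 * ζ) := by
        calc R ^ ζ * R ^ (2 * e) = R ^ (ζ + 2 * e) := (Real.rpow_add hRp _ _).symm
          _ ≤ R ^ (1 + (-1 + 2 * ζ)) := Real.rpow_le_rpow_of_exponent_le hR1 (by linarith)
          _ = R * R ^ (-1 + 2 * ζ) := by rw [Real.rpow_add hRp 1, Real.rpow_one]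
      have hE : 0 < R ^ (2 * e) := by positivity
      have h18 : (c ^ 2 * R ^ ζ) * R ^ (2 * e) ≤ (((d : ℝ) + 1) ^ 2 * (R * (qf Mm v).im)) * R ^ (2 * e) := by
        calc (c ^ 2 * R ^ ζ) * R ^ (2 * e) = c ^ 2 * (R ^ ζ * R ^ (2 * e)) := by ring
          _ ≤ c ^ 2 * (R * R ^ (-1 + 2 * ζ)) := mul_le_mul_of_nonneg_left h17 (by positivity)
          _ = R * (c ^ 2 * R ^ (-1 + 2 * ζ)) := by ring
          _ ≤ R * (((d : ℝ) + 1) ^ 2 * R ^ (2 * e) * (qf Mm v).im) := mul_le_mul_of_nonneg_left h15 hRp.le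
          _ = (((d : ℝ) + 1) ^ 2 * (R * (qf Mm v).im)) * R ^ (2 * e) := by ring
      have h19 := le_of_mul_le_mul_right h18 hE
      have hD : (0 : ℝ) < ((d : ℝ) + 1) ^ 2 := by positivity
      rw [ha]
      have h20 : c ^ 2 / (2 * ((d : ℝ) + 1) ^ 2) * R ^ ζ = (c ^ 2 * R ^ ζ) / (2 * ((d : ℝ) + 1) ^ 2) := by ring
      rw [h20, div_le_iff₀ (by positivity)]
      calc c ^ 2 * R ^ ζ ≤ ((d : ℝ) + 1) ^ 2 * (R * (qf Mm v).im) := h19
        _ = R / 2 * (qf Mm v).im * (2 * ((d : ℝ) + 1) ^ 2) := by ring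
    have h21 : ‖Complex.exp (Complex.I * (R : ℂ) * (qf Mm v / 2))‖ ≤ Real.exp (-(a * R ^ ζ)) := by
      rw [hexp]
      exact Real.exp_le_exp.2 (by linarith)
    have h22 : N ^ k ≤ R ^ (2 * (Kd : ℝ)) := by
      have h23 : N ≤ R ^ (2 : ℝ) := Real.rpow_le_rpow_of_exponent_le hR1 (by linarith)
      calc N ^ k ≤ N ^ Kd := pow_le_pow_right₀ hN1 hk
        _ ≤ (R ^ (2 : ℝ)) ^ Kd := pow_le_pow_left₀ (by positivity) h23 Kd
        _ = R ^ (2 * (Kd : ℝ)) := by rw [← Real.rpow_natCast, ← Real.rpow_mul hRp.le]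
    calc (Kd.factorial : ℝ) * ‖Complex.exp (Complex.I * (R : ℂ) * (qf Mm v / 2))‖ * N ^ k
        ≤ (Kd.factorial : ℝ) * Real.exp (-(a * R ^ ζ)) * R ^ (2 * (Kd : ℝ)) := by gcongr
      _ = ((Kd.factorial : ℝ) * R ^ (2 * (Kd : ℝ) + M) * Real.exp (-(a * R ^ ζ))) * R ^ (-M) := by
        rw [Real.rpow_add hRp, Real.rpow_neg hRp.le]
        have : R ^ M ≠ 0 := (Real.rpow_pos_of_pos hRp M).ne'
        field_simp
      _ ≤ 1 * R ^ (-M) := mul_le_mul_of_nonneg_right h1 (by positivity)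
      _ = R ^ (-M) := one_mul _

end

end Pool.Agent.VD
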