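import Pool.Agent.helper55.VD.SpecE3

/-!
# EE2 (project VD, MP_07c750_an, block E): the energy window
-/

set_option autoImplicit false

open scoped ContDiff Topology InnerProductSpace ComplexConjugate ENNReal
open MeasureTheory Filter Set

namespace Pool.Agent.VD

open Pool.Agent.VQ (CH KZ PS perZ cmZ)
open Pool.Agent.RPQ (IsOp)

noncomputable section

/-- integral and lower integral of the norm squared -/
theorem EE2_li {Γ : Type} {d : ℕ} {v : YS Γ d → ℂ} (hv : Measurable v) (S : Set (YS Γ d)) :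
    ∫ y in S, ‖v y‖ ^ 2 ∂mY Γ d = (∫⁻ y in S, ‖v y‖ₑ ^ 2 ∂mY Γ d).toReal := by
  rw [integral_eq_lintegral_of_nonneg_ae (Eventually.of_forall fun p => by positivity)
    (hv.norm.pow_const 2).aestronglyMeasurable]
  congr 1
  have h1 : ∀ p, ENNReal.ofReal (‖v p‖ ^ 2) = ‖v p‖ₑ ^ 2 := fun p => by
    rw [ENNReal.ofReal_pow (norm_nonneg _), ofReal_norm]
  simp only [h1]

theorem EE2_int {Γ : Type} {d : ℕ} {v : YS Γ d → ℂ} (hv : Measurable v) (S : Set (YS Γ d))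
    (h : ∫⁻ y in S, ‖v y‖ₑ ^ 2 ∂mY Γ d < ⊤) : IntegrableOn (fun y => ‖v y‖ ^ 2) S (mY Γ d) := by
  refine ⟨(hv.norm.pow_const 2).aestronglyMeasurable, ?_⟩
  rw [hasFiniteIntegral_iff_enorm]
  have h1 : ∀ p, ‖‖v p‖ ^ 2‖ₑ = ‖v p‖ₑ ^ 2 := fun p => by
    rw [enorm_pow, enorm_norm]
  simp only [h1]
  exact h

/-- square integrability on a bounded fundamental domain -/
theorem EE2_sq {Γ : Type} {d : ℕ} [Group Γ] [MulAction Γ (V d)] {F : Set (V d)} {G : V d → V d →L[ℝ] V d} (hF : FD Γ F)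
    (hfin : ∀ S : Set (V d), IsCompact S → mv G S < ⊤) {u : V d → ℂ} (hu : Continuous u) :
    IntegrableOn (fun z => ‖u z‖ ^ 2) F (mv G) := by
  obtain ⟨b, hb⟩ := hF.bdd
  have hsub : F ⊆ Metric.closedBall (0 : V d) b := fun x hx => mem_closedBall_zero_iff.2 (hb x hx)
  have hcpt : IsCompact (Metric.closedBall (0 : V d) b) := isCompact_closedBall _ _
  have hcont : Continuous (fun z => ‖u z‖ ^ 2) := hu.norm.pow 2
  obtain ⟨M, hM⟩ := hcpt.exists_bound_of_continuousOn hcont.continuousOn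
  refine Measure.integrableOn_of_bounded (M := M) ?_ hcont.measurable.aestronglyMeasurable ?_
  · exact ((measure_mono hsub).trans_lt (hfin _ hcpt)).ne
  · exact (ae_restrict_iff' hF.meas).2 (Eventually.of_forall fun z hz => hM z (hsub hz))

/-- the second moment bound with the operator `Hop` -/
theorem EE2_hop {Γ : Type} {d : ℕ} [Group Γ] [MulAction Γ (V d)] {F : Set (V d)} {G : V d → V d →L[ℝ] V d} (hF : FD Γ F)
    (hfin : ∀ S : Set (V d), IsCompact S → mv G S < ⊤) {u : V d → ℂ} (hu : Continuous u) {R : ℝ} (hR : 1 ≤ R)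
    (hH : ∀ z, ‖Hop G R u z‖ ≤ 2 * R ^ (1 / 100 : ℝ) * ‖u z‖) :
    nn G F (fun z => lap G u z + ((R ^ 2 * (1 + 2 * 0) : ℝ) : ℂ) * u z) ≤ 16 * R ^ (2 + 1 / 50 : ℝ) * nn G F u := by
  have h0 : 0 < R := by linarith
  have i1 := EE2_sq hF hfin hu
  have e1 : 16 * R ^ (2 + 1 / 50 : ℝ) * nn G F u = ∫ z in F, 16 * R ^ (2 + 1 / 50 : ℝ) * ‖u z‖ ^ 2 ∂mv G := by
    rw [nn, integral_const_mul]
  rw [e1, nn]
  refine integral_mono_of_nonneg (Eventually.of_forall fun z => by positivity) (i1.const_mul _) (Eventually.of_forall fun z => ?_)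
  change ‖lap G u z + ((R ^ 2 * (1 + 2 * 0) : ℝ) : ℂ) * u z‖ ^ 2 ≤ 16 * R ^ (2 + 1 / 50 : ℝ) * ‖u z‖ ^ 2
  have e2 : lap G u z + ((R ^ 2 * (1 + 2 * 0) : ℝ) : ℂ) * u z = -(((2 * R : ℝ) : ℂ) * Hop G R u z) := by
    rw [Hop, ← mul_assoc, ← Complex.ofReal_mul, mul_inv_cancel₀ (by positivity), Complex.ofReal_one, one_mul, mul_zero, add_zero, mul_one]
    ring
  have e3 : ‖lap G u z + ((R ^ 2 * (1 + 2 * 0) : ℝ) : ℂ) * u z‖ ≤ 4 * (R * R ^ (1 / 100 : ℝ)) * ‖u z‖ := by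
    rw [e2, norm_neg, norm_mul, Complex.norm_real, Real.norm_of_nonneg (by positivity)]
    have := mul_le_mul_of_nonneg_left (hH z) (by positivity : 0 ≤ 2 * R)
    linarith
  have e4 : 16 * R ^ (2 + 1 / 50 : ℝ) * ‖u z‖ ^ 2 = (4 * (R * R ^ (1 / 100 : ℝ)) * ‖u z‖) ^ 2 := by
    have e5 : R ^ (2 + 1 / 50 : ℝ) = (R * R ^ (1 / 100 : ℝ)) ^ 2 := by
      rw [mul_pow, ← Real.rpow_natCast (R ^ (1 / 100 : ℝ)), ← Real.rpow_mul h0.le, Real.rpow_add h0]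
      norm_num
    rw [e5]
    ring
  rw [e4]
  exact pow_le_pow_left₀ (norm_nonneg _) e3 2

/-- the numbers: the mass outside the window -/
theorem EE2_num {R z N N' : ℝ} (hR : 1 ≤ R) (hz : z ≤ 1 / 900) (hN : 0 ≤ N) (hN' : N' ≤ 16 * R ^ (2 + 1 / 50 : ℝ) * N) :
    R ^ (1 / 2 + 9 * z) * (R ^ (-4 : ℝ) * N' + R ^ (-1 : ℝ) * N) ≤ 17 * R ^ (-(49 / 100) : ℝ) * N := by
  have h0 : 0 < R := by linarith
  have a1 : R ^ (-4 : ℝ) * N' ≤ 16 * R ^ (-1 : ℝ) * N := by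
    have b1 : R ^ (-4 : ℝ) * N' ≤ R ^ (-4 : ℝ) * (16 * R ^ (2 + 1 / 50 : ℝ) * N) := mul_le_mul_of_nonneg_left hN' (Real.rpow_nonneg h0.le _)
    have b2 : R ^ (-4 : ℝ) * R ^ (2 + 1 / 50 : ℝ) ≤ R ^ (-1 : ℝ) := by
      rw [← Real.rpow_add h0]
      exact Real.rpow_le_rpow_of_exponent_le hR (by norm_num)
    have b3 := mul_le_mul_of_nonneg_right b2 (by positivity : 0 ≤ 16 * N)
    have e : R ^ (-4 : ℝ) * (16 * R ^ (2 + 1 / 50 : ℝ) * N) = R ^ (-4 : ℝ) * R ^ (2 + 1 / 50 : ℝ) * (16 * N) := by ring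
    rw [e] at b1
    linarith
  have a2 : R ^ (-4 : ℝ) * N' + R ^ (-1 : ℝ) * N ≤ 17 * R ^ (-1 : ℝ) * N := by linarith
  have a3 := mul_le_mul_of_nonneg_left a2 (Real.rpow_nonneg h0.le (1 / 2 + 9 * z))
  have a4 : R ^ (1 / 2 + 9 * z) * R ^ (-1 : ℝ) ≤ R ^ (-(49 / 100) : ℝ) := by
    rw [← Real.rpow_add h0]
    exact Real.rpow_le_rpow_of_exponent_le hR (by linarith)
  have a5 := mul_le_mul_of_nonneg_right a4 (by positivity : 0 ≤ 17 * N)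
  have e2 : R ^ (1 / 2 + 9 * z) * (17 * R ^ (-1 : ℝ) * N) = R ^ (1 / 2 + 9 * z) * R ^ (-1 : ℝ) * (17 * N) := by ring
  have e3 : R ^ (-(49 / 100) : ℝ) * (17 * N) = 17 * R ^ (-(49 / 100) : ℝ) * N := by ring
  rw [e2] at a3
  linarith

theorem EE2_proof (hAMVI : AMVI_stmt) (hADMD : ADMD_stmt) (hAQSD : AQSD_stmt) (hAISD : AISD_stmt) (hAQAD : AQAD_stmt)
    (hAELD : AELD_stmt) : EE2_stmt := by
  intro d Γ _ _ K k B r0 χ hK hχ
  refine ⟨900, by norm_num, ?_⟩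
  intro ch A hch hA
  obtain ⟨hz0, hz1, -, hz2, -, -, hz3, -⟩ := EAM1 hA (by norm_num)
  have hz : A.z ≤ 1 / 900 := by linarith
  have hz8 : A.z ≤ 1 / 8 := by linarith
  obtain ⟨R2, hR2, H2⟩ := hAQSD d Γ K k B r0 χ ch A.z hK hχ hch hz0 hz8
  obtain ⟨R3, hR3, H3⟩ := hAISD d Γ K k B r0 χ ch A.z hK hχ hch hz0 hz8
  obtain ⟨R4, hR4, H4⟩ := hAQAD d Γ K k B r0 χ ch A.z hK hχ hch hz0 hz8
  obtain ⟨R5, hR5, H5⟩ := hAELD d Γ K k B r0 χ ch A.z hK hχ hch hz0 hz8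
  refine ⟨max (max R2 R3) (max (max R4 R5) (18 ^ 20)), ?_, ?_⟩
  · exact (by norm_num : (1 : ℝ) ≤ 18 ^ 20).trans ((le_max_right _ _).trans (le_max_right _ _))
  intro R F G f u hR hF hG hAp
  have g2 : R2 ≤ R := ((le_max_left _ _).trans (le_max_left _ _)).trans hR
  have g3 : R3 ≤ R := ((le_max_right _ _).trans (le_max_left _ _)).trans hR
  have g4 : R4 ≤ R := ((le_max_left _ _).trans ((le_max_left _ _).trans (le_max_right _ _))).trans hR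
  have g5 : R5 ≤ R := ((le_max_right _ _).trans ((le_max_left _ _).trans (le_max_right _ _))).trans hR
  have g6 : (18 : ℝ) ^ 20 ≤ R := ((le_max_right _ _).trans (le_max_right _ _)).trans hR
  have hR1 : 1 ≤ R := le_trans (by norm_num) g6
  have hR0 : 0 < R := by linarith
  have hDm : Dm (⊤ : Subgroup Γ) F ({1} : Set Γ) := Or.inl ⟨rfl, hF, rfl⟩
  obtain ⟨-, -, -, -, hfin, -⟩ := hAMVI d Γ K k B G hK hG
  obtain ⟨-, -, -, -, hGW, -⟩ := hADMD d Γ K k B G hK hG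
  obtain ⟨-, -, -, -, -, -, hQ⟩ := H2 R G g2 hG
  obtain ⟨hQ1, -⟩ := hQ ⊤ F {1} hDm
  obtain ⟨hFP, -⟩ := hQ1 u hAp.fh
  obtain ⟨hI1, hI2⟩ := H3 R G g3 hG ⊤ F {1} hDm u hAp.fh
  obtain ⟨hA1, -⟩ := H4 R G g4 hG ⊤ F {1} hDm
  obtain ⟨hA2, hA3⟩ := hA1 u hAp.fh
  obtain ⟨-, hE⟩ := H5 R G g5 hG ⊤ F {1} hDm u 0 hAp.fh hAp.cd (by norm_num)
  have hN0 : 0 ≤ nn G F u := integral_nonneg fun z => by positivity
  have hnum := EE2_num hR1 hz hN0 (EE2_hop hF hfin hAp.fh.cont hR1 hAp.bd)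
  have hp4 : 0 < R ^ (-(1 / 4) : ℝ) := Real.rpow_pos_of_pos hR0 _
  have hc : ∀ c : ℝ, 1 ≤ c → ∫⁻ y in DT d ({1} : Set Γ) \ GW Γ G r0 c R, ‖QF G χ ch A.z R u y‖ₑ ^ 2 ∂mY Γ d ≤ ENNReal.ofReal (17 * R ^ (-(49 / 100) : ℝ) * nn G F u) := by
    intro c hc
    have h1 := hE c (by rw [abs_zero]; nlinarith)
    refine h1.trans (ENNReal.ofReal_le_ofReal ?_)
    exact hnum
  have hp5 : 0 ≤ 17 * R ^ (-(49 / 100) : ℝ) * nn G F u := by positivity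
  -- numbers
  have n1 : (18 : ℝ) ≤ R ^ (1 / 20 : ℝ) := by
    have e2 : (18 : ℝ) = ((18 : ℝ) ^ 20) ^ (1 / 20 : ℝ) := by
      rw [← Real.rpow_natCast, ← Real.rpow_mul (by norm_num)]
      norm_num
    rw [e2]
    exact Real.rpow_le_rpow (by norm_num) g6 (by norm_num)
  have n2 : 18 * R ^ (-(1 / 4) : ℝ) ≤ R ^ (-(1 / 5) : ℝ) := by
    have e5 : R ^ (1 / 20 : ℝ) * R ^ (-(1 / 4) : ℝ) = R ^ (-(1 / 5) : ℝ) := by
      rw [← Real.rpow_add hR0]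
      norm_num
    rw [← e5]
    exact mul_le_mul_of_nonneg_right n1 hp4.le
  have n3 : R ^ (-(49 / 100) : ℝ) ≤ R ^ (-(1 / 4) : ℝ) := Real.rpow_le_rpow_of_exponent_le hR1 (by norm_num)
  have n4 : 324 * R ^ (-(49 / 100) : ℝ) ≤ R ^ (-(1 / 5) : ℝ) := by
    have e5 : R ^ (1 / 20 : ℝ) * R ^ (1 / 20 : ℝ) * R ^ (-(49 / 100) : ℝ) = R ^ (-(39 / 100) : ℝ) := by
      rw [← Real.rpow_add hR0, ← Real.rpow_add hR0]
      norm_num
    have e6 : R ^ (-(39 / 100) : ℝ) ≤ R ^ (-(1 / 5) : ℝ) := Real.rpow_le_rpow_of_exponent_le hR1 (by norm_num)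
    have e7 : (18 : ℝ) * 18 ≤ R ^ (1 / 20 : ℝ) * R ^ (1 / 20 : ℝ) := mul_le_mul n1 n1 (by norm_num) (by linarith)
    have e8 := mul_le_mul_of_nonneg_right e7 (Real.rpow_nonneg hR0.le (-(49 / 100) : ℝ))
    rw [e5] at e8
    linarith
  have n5 : R ^ (-(1 / 2) : ℝ) ≤ R ^ (-(49 / 100) : ℝ) := Real.rpow_le_rpow_of_exponent_le hR1 (by norm_num)
  have hmeas : Measurable (QF (Γ := Γ) G χ ch A.z R u) := hFP.meas
  have hfinDT : ∫⁻ y in DT d ({1} : Set Γ), ‖QF G χ ch A.z R u y‖ₑ ^ 2 ∂mY Γ d < ⊤ := hI1.trans_lt ENNReal.ofReal_lt_top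
  have hint := EE2_int hmeas _ hfinDT
  refine ⟨hFP, ?_, ?_, ?_, ?_⟩
  · refine hA3.trans ?_
    have h1 := ENNReal.toReal_le_of_le_ofReal hp5 (hc 2 (by norm_num))
    have h2 : R ^ (-(1 / 2) : ℝ) * nn G F u ≤ R ^ (-(49 / 100) : ℝ) * nn G F u := mul_le_mul_of_nonneg_right n5 hN0
    have h3 := mul_le_mul_of_nonneg_right n4 hN0
    have h4 : 0 ≤ R ^ (-(49 / 100) : ℝ) * nn G F u := by positivity
    linarith
  · refine hA2.trans (mul_le_mul_of_nonneg_right ?_ hN0)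
    linarith
  · have hsplit := integral_inter_add_sdiff (hGW r0 1 R).1 hint
    have h1 : (1 - R ^ (-(1 / 4) : ℝ)) * nn G F u ≤ ∫ y in DT d ({1} : Set Γ), ‖QF G χ ch A.z R u y‖ ^ 2 ∂mY Γ d := by
      rw [EE2_li hmeas]
      exact (ENNReal.ofReal_le_iff_le_toReal hfinDT.ne).1 hI2
    have h2 : ∫ y in DT d ({1} : Set Γ) \ GW Γ G r0 1 R, ‖QF G χ ch A.z R u y‖ ^ 2 ∂mY Γ d ≤ 17 * R ^ (-(49 / 100) : ℝ) * nn G F u := by
      rw [EE2_li hmeas]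
      exact ENNReal.toReal_le_of_le_ofReal hp5 (hc 1 le_rfl)
    have h3 : 17 * R ^ (-(49 / 100) : ℝ) * nn G F u ≤ 17 * R ^ (-(1 / 4) : ℝ) * nn G F u :=
      mul_le_mul_of_nonneg_right (mul_le_mul_of_nonneg_left n3 (by norm_num)) hN0
    have h4 := mul_le_mul_of_nonneg_right n2 hN0
    have h5 : nP G r0 ({1} : Set Γ) 1 R (QF G χ ch A.z R u) = ∫ y in DT d ({1} : Set Γ) ∩ GW Γ G r0 1 R, ‖QF G χ ch A.z R u y‖ ^ 2 ∂mY Γ d := rfl
    rw [h5]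
    linarith
  · refine setIntegral_mono_set (hint.mono_set inter_subset_left) (Eventually.of_forall fun y => by positivity) (HasSubset.Subset.eventuallyLE ?_)
    refine inter_subset_inter_right _ ?_
    intro y hy
    refine ⟨hy.1, hy.2.trans ?_⟩
    exact mul_le_mul_of_nonneg_right (by norm_num) hp4.le

end

end Pool.Agent.VD
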