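import Pool.Agent.helper55.VD.SpecE3
import Pool.Agent.helper74.VD.SpecA4

/-!
# EO1 (project VD, MP_07c750_an, block E): one unit step
-/

set_option autoImplicit false

open scoped ContDiff Topology InnerProductSpace ComplexConjugate ENNReal
open MeasureTheory Filter Set

namespace Pool.Agent.VD

open Pool.Agent.VQ (CH KZ PS perZ cmZ)
open Pool.Agent.RPQ (IsOp)

noncomputable section

theorem EO1_int {Γ : Type} {d : ℕ} {S : Set (YS Γ d)} (hS : mY Γ d S ≠ ⊤) {x : YS Γ d → ℂ} (hx : Measurable x) (hxb : ∃ b : ℝ, ∀ q, ‖x q‖ ≤ b) :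
    IntegrableOn (fun q => ‖x q‖ ^ 2) S (mY Γ d) := by
  obtain ⟨b, hb⟩ := hxb
  refine Measure.integrableOn_of_bounded (M := b ^ 2) hS (hx.norm.pow_const 2).aestronglyMeasurable (Eventually.of_forall fun q => ?_)
  rw [Real.norm_of_nonneg (by positivity)]
  exact pow_le_pow_left₀ (norm_nonneg _) (hb q) 2

theorem EO1_add {Γ : Type} {d : ℕ} {G : V d → V d →L[ℝ] V d} {r0 R c : ℝ} {T : Set Γ} (hS : mY Γ d (DT d T ∩ GW Γ G r0 c R) ≠ ⊤)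
    {x y z : YS Γ d → ℂ} (hx : Measurable x) (hxb : ∃ b : ℝ, ∀ q, ‖x q‖ ≤ b) (hy : Measurable y) (hyb : ∃ b : ℝ, ∀ q, ‖y q‖ ≤ b)
    (hz : ∀ q, z q = x q + y q) : nP G r0 T c R z ≤ 2 * nP G r0 T c R x + 2 * nP G r0 T c R y := by
  have ix := EO1_int hS hx hxb
  have iy := EO1_int hS hy hyb
  have e1 : nP G r0 T c R z = ∫ q in DT d T ∩ GW Γ G r0 c R, ‖x q + y q‖ ^ 2 ∂mY Γ d := by
    unfold nP
    simp only [hz]
  have e2 : 2 * nP G r0 T c R x + 2 * nP G r0 T c R y = ∫ q in DT d T ∩ GW Γ G r0 c R, (2 * ‖x q‖ ^ 2 + 2 * ‖y q‖ ^ 2) ∂mY Γ d := by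
    unfold nP
    rw [integral_add (ix.const_mul 2) (iy.const_mul 2), integral_const_mul, integral_const_mul]
  rw [e1, e2]
  refine integral_mono_of_nonneg (Eventually.of_forall fun p => by positivity) ((ix.const_mul 2).add (iy.const_mul 2)) (Eventually.of_forall fun p => ?_)
  change ‖x p + y p‖ ^ 2 ≤ 2 * ‖x p‖ ^ 2 + 2 * ‖y p‖ ^ 2
  have h1 := norm_add_le (x p) (y p)
  have h2 := pow_le_pow_left₀ (norm_nonneg _) h1 2
  nlinarith [sq_nonneg (‖x p‖ - ‖y p‖)]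

/-- the analysis operator is additive -/
theorem EO1_lin {Γ : Type} {d : ℕ} [Group Γ] [MulAction Γ (V d)] {G : V d → V d →L[ℝ] V d} {r0 R C : ℝ} (hfin : ∀ S : Set (V d), IsCompact S → mv G S < ⊤)
    (hsm : ∀ γ : Γ, ContDiff ℝ ∞ fun x : V d => γ • x) {f : YS Γ d → V d → ℂ} (hc : ∀ γ : Γ, Continuous fun x : P d × V d => f ((γ, x.1) : YS Γ d) x.2)
    (hs : ∀ y ∈ GW Γ G r0 2 R, ∀ z, pF f y z ≠ 0 → ‖y.1⁻¹ • z‖ ≤ C) {φ ψ : V d → ℂ} (hφ : Continuous φ) (hψ : Continuous ψ) (y : YS Γ d) :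
    aF G r0 R f (fun z => φ z + ψ z) y = aF G r0 R f φ y + aF G r0 R f ψ y := by
  have : IsFiniteMeasureOnCompacts (mv G) := ⟨fun K hK => hfin K hK⟩
  by_cases hy : y ∈ GW Γ G r0 2 R
  · have hi : ∀ u : V d → ℂ, Continuous u → Integrable (fun z => u z * conj (pF f y z)) (mv G) := by
      intro u hu
      have hcf : Continuous (fun z => pF f y z) := by
        have h1 : Continuous fun z : V d => (y.2, y.1⁻¹ • z) := continuous_const.prodMk (hsm y.1⁻¹).continuous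
        exact (hc y.1).comp h1
      have hK : IsCompact ((fun x : V d => y.1 • x) '' Metric.closedBall (0 : V d) C) :=
        (isCompact_closedBall _ _).image (hsm y.1).continuous
      have h3 : HasCompactSupport (fun z => u z * conj (pF f y z)) := by
        refine HasCompactSupport.intro hK fun z hz => ?_
        by_contra h0
        have h1 : pF f y z ≠ 0 := by
          intro h2
          rw [h2, map_zero, mul_zero] at h0
          exact h0 rfl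
        refine hz ⟨y.1⁻¹ • z, mem_closedBall_zero_iff.2 (hs y hy z h1), ?_⟩
        simp
      exact (hu.mul (Complex.continuous_conj.comp hcf)).integrable_of_hasCompactSupport h3
    unfold aF
    rw [indicator_of_mem hy, indicator_of_mem hy, indicator_of_mem hy, ← integral_add (hi φ hφ) (hi ψ hψ)]
    congr 1
    funext z
    ring
  · unfold aF
    rw [indicator_of_notMem hy, indicator_of_notMem hy, indicator_of_notMem hy, add_zero]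

theorem EO1_proof (hAMVI : AMVI_stmt) (hEYP : EYP_stmt) (hAQSD : AQSD_stmt) (hAFMD : AFMD_stmt) (hAFRD : AFRD_stmt) (hASAD : ASAD_stmt) (hAUMD : AUMD_stmt)
    (hATSD : ATSD_stmt) (hEE2 : EE2_stmt) (hEET : EET_stmt) (hEEY : EEY_stmt) : EO1_stmt := by
  intro d Γ _ _ K k B r0 χ hK hχ
  obtain ⟨CM, hCM1, hAFMD⟩ := hAFMD d Γ K k B r0 χ hK hχ
  obtain ⟨CR, hCR1, hAFRD⟩ := hAFRD d Γ K k B r0 hK
  obtain ⟨CS, hCS1, hASAD⟩ := hASAD d Γ K k B r0 χ hK hχ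
  obtain ⟨CU, hCU1, hAUMD⟩ := hAUMD d Γ K k B r0 χ hK hχ
  obtain ⟨CT, hCT1, hATSD⟩ := hATSD d Γ K k B r0 χ hK hχ
  obtain ⟨CW, hCW1, hEE2⟩ := hEE2 d Γ K k B r0 χ hK hχ
  obtain ⟨CD, hCD1, hEET⟩ := hEET d Γ K k B r0 χ hK hχ
  obtain ⟨CE, hCE1, hEEY⟩ := hEEY d Γ K k B r0 hK
  obtain ⟨CC, hCC⟩ : ∃ CC : ℝ, CC = 4 * CM + CS + CU + CT + CW + CD + CE + 8 := ⟨_, rfl⟩
  refine ⟨CC, by linarith, ?_⟩
  intro ch A hch hA
  have hCC1 : 1 ≤ CC := by linarith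
  obtain ⟨hz0, hz1, hz1p, hz2, hz2p, hz3, hz4, -⟩ := EAM1 hA hCC1
  have h81 : 8 * A.z2 ≤ 1 := by nlinarith
  have hz8 : A.z ≤ 1 / 8 := by linarith
  have hz5 : CC * A.z1 ≤ 1 := by linarith
  have q4 : CM * A.z1 ≤ 1 / 4 := by nlinarith
  have qM : CM * A.z1 ≤ 1 := by linarith
  have qS : CS * A.z1 ≤ 1 := by nlinarith
  have p1 : 0 < CM * A.z1 := by positivity
  obtain ⟨RM, -, hAFMD⟩ := hAFMD ch 0 A.z A.z1 0 hch hz0 hz1 qM
  obtain ⟨RS, -, hASAD⟩ := hASAD ch A.z A.z1 hch hz0 hz1 qS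
  obtain ⟨RU, -, hAUMD⟩ := hAUMD ch A hch (EAM0 hA hCU1 (by linarith))
  obtain ⟨RT, -, hATSD⟩ := hATSD ch A hch (EAM0 hA hCT1 (by linarith))
  obtain ⟨RW, -, hEE2⟩ := hEE2 ch A hch (EAM0 hA hCW1 (by linarith))
  obtain ⟨RD, -, hEET⟩ := hEET ch A hch (EAM0 hA hCD1 (by linarith))
  obtain ⟨RE, -, hEEY⟩ := hEEY A (EAM0 hA hCE1 (by linarith))
  obtain ⟨RQ, -, hAQSD⟩ := hAQSD d Γ K k B r0 χ ch A.z hK hχ hch hz0 hz8
  have ev1 : ∀ᶠ R : ℝ in atTop, (24 : ℝ) ≤ R ^ (1 / 60 - 1 / 70 : ℝ) := (tendsto_rpow_atTop (by norm_num : (0 : ℝ) < 1 / 60 - 1 / 70)).eventually_ge_atTop _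
  obtain ⟨Re, hRe⟩ := eventually_atTop.1 (ev1.and ((eventually_ge_atTop CR).and ((eventually_ge_atTop RM).and ((eventually_ge_atTop RS).and
    ((eventually_ge_atTop RU).and ((eventually_ge_atTop RT).and ((eventually_ge_atTop RW).and ((eventually_ge_atTop RD).and
    ((eventually_ge_atTop RE).and (eventually_ge_atTop RQ))))))))))
  refine ⟨max 1 Re, le_max_left _ _, ?_⟩
  intro R F G Φ f u hR hF hO hAp
  have hR1 : 1 ≤ R := (le_max_left _ _).trans hR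
  have hR0 : 0 < R := by linarith
  obtain ⟨n1, gCR, gM, gS, gU, gT, gW, gD, gE, gQ⟩ := hRe R ((le_max_right _ _).trans hR)
  have hDm : Dm (⊤ : Subgroup Γ) F ({1} : Set Γ) := Or.inl ⟨rfl, hF, rfl⟩
  obtain ⟨hcount, -, -, -, hfin, -⟩ := hAMVI d Γ K k B G hK hO.cls
  obtain ⟨-, -, -, -, -, hlint, hvol⟩ := hEYP d Γ G r0 2 R hO.cls.met
  have hS : mY Γ d (DT d ({1} : Set Γ) ∩ GW Γ G r0 2 R) ≠ ⊤ := by
    have h1 := hlint (fun _ => 1)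
    rw [setLIntegral_one, setLIntegral_one] at h1
    rw [h1]
    exact hvol.ne
  obtain ⟨hq, w2, w3, -, -⟩ := hEE2 R F G f u gW hF hO.cls hAp
  obtain ⟨-, -, -, -, -, -, hQ⟩ := hAQSD R G gQ hO.cls
  obtain ⟨-, hQs, -⟩ := hQ ⊤ F {1} hDm
  have hW : FH (⊤ : Subgroup Γ) F (Qs G r0 χ ch A.z R (QF (Γ := Γ) G χ ch A.z R u)) := hQs _ hq
  have hu : FH (⊤ : Subgroup Γ) F u := hAp.fh
  have hWu : FH (⊤ : Subgroup Γ) F (fun z => Qs G r0 χ ch A.z R (QF (Γ := Γ) G χ ch A.z R u) z - u z) := by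
    obtain ⟨b, hb⟩ := hF.bdd
    refine ⟨hW.cont.sub hu.cont, fun γ hγ z => ?_, ⟨b, fun z hz _ => hb z hz⟩⟩
    change Qs G r0 χ ch A.z R (QF (Γ := Γ) G χ ch A.z R u) (γ • z) - u (γ • z) = Qs G r0 χ ch A.z R (QF (Γ := Γ) G χ ch A.z R u) z - u z
    rw [hW.inv γ hγ z, hu.inv γ hγ z]
  obtain ⟨fa, -⟩ := hAFMD R 1 G Φ gM hO (by rw [abs_one])
  obtain ⟨hpk, -, hrest⟩ := hAFRD 0 (CM * A.z1) _ R 1 G Φ _ gCR hO p1 q4 (Real.rpow_nonneg hR0.le _) (by rw [abs_one]) fa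
  obtain ⟨-, hfp, -⟩ := hrest ⊤ F {1} hDm
  have fW := hfp _ hW
  have fWu := hfp _ hWu
  have fu := hfp _ hu
  obtain ⟨kus, -, kst, -, kop, -, -⟩ := hAUMD R G Φ gU hO
  have fOp := (kop _ ⊤ F {1} _ hDm kus (fun y y' h => ⟨(kst y y' h).1.1, (kst y y' h).1.2.1⟩) hq).1
  obtain ⟨t1, -, -, -⟩ := hATSD R G Φ gT hO ⊤ F {1} _ hDm hq
  obtain ⟨-, hb0⟩ := hASAD R 1 G Φ gS hO (by norm_num) le_rfl ⊤ F {1} hDm
  have hb1 := hb0 _ hWu
  have hc1 := hEET R 1 F G Φ f u gD hF hO hAp (by norm_num) le_rfl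
  obtain ⟨-, thm, -⟩ := hEEY R G Φ f gE hO hAp.sm
  have hN : 0 ≤ nn G F u := integral_nonneg fun z => by positivity
  have hpow : ∀ a : ℝ, 0 < R ^ a := fun a => Real.rpow_pos_of_pos hR0 a
  -- measurability and bounds
  have bsub : ∀ {x y : YS Γ d → ℂ}, (∃ b : ℝ, ∀ q, ‖x q‖ ≤ b) → (∃ b : ℝ, ∀ q, ‖y q‖ ≤ b) → ∃ b : ℝ, ∀ q, ‖x q - y q‖ ≤ b := by
    rintro x y ⟨b, hb⟩ ⟨b', hb'⟩
    exact ⟨b + b', fun q => (norm_sub_le _ _).trans (add_le_add (hb q) (hb' q))⟩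
  have badd : ∀ {x y : YS Γ d → ℂ}, (∃ b : ℝ, ∀ q, ‖x q‖ ≤ b) → (∃ b : ℝ, ∀ q, ‖y q‖ ≤ b) → ∃ b : ℝ, ∀ q, ‖x q + y q‖ ≤ b := by
    rintro x y ⟨b, hb⟩ ⟨b', hb'⟩
    exact ⟨b + b', fun q => (norm_add_le _ _).trans (add_le_add (hb q) (hb' q))⟩
  have mph : Measurable (fun y : YS Γ d => Complex.exp (((thP Φ f R 1 y.2 : ℝ) : ℂ) * Complex.I) * QF G χ ch A.z R u y) :=
    (Complex.measurable_exp.comp ((Complex.measurable_ofReal.comp (thm 1)).mul_const _)).mul hq.meas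
  have bph : ∃ b : ℝ, ∀ y : YS Γ d, ‖Complex.exp (((thP Φ f R 1 y.2 : ℝ) : ℂ) * Complex.I) * QF G χ ch A.z R u y‖ ≤ b := by
    obtain ⟨b, hb⟩ := hq.bdd
    refine ⟨b, fun y => ?_⟩
    rw [norm_mul, Complex.norm_exp_ofReal_mul_I, one_mul]
    exact hb y
  have mA := fOp.meas.sub fW.meas
  have bA := bsub fOp.bdd fW.bdd
  have mC := fu.meas.sub mph
  have bC := bsub fu.bdd bph
  have nbc := EO1_add (G := G) (r0 := r0) (R := R) (c := 2) (T := ({1} : Set Γ)) hS (z := fun y : YS Γ d => aF G r0 R (fP G Φ χ ch A.z A.z1 R 1) (fun z => Qs G r0 χ ch A.z R (QF (Γ := Γ) G χ ch A.z R u) z - u z) y +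
    (aF G r0 R (fP G Φ χ ch A.z A.z1 R 1) u y - Complex.exp (((thP Φ f R 1 y.2 : ℝ) : ℂ) * Complex.I) * QF G χ ch A.z R u y)) fWu.meas fWu.bdd mC bC (fun y => rfl)
  have nz := EO1_add (G := G) (r0 := r0) (R := R) (c := 2) (T := ({1} : Set Γ)) hS (z := fun y : YS Γ d => Op (us G Φ r0 χ ch A R) (QF G χ ch A.z R u) y - Complex.exp (((thP Φ f R 1 y.2 : ℝ) : ℂ) * Complex.I) * QF G χ ch A.z R u y)
    mA bA (fWu.meas.add mC) (badd fWu.bdd bC) (fun y => by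
      have e := EO1_lin (G := G) (r0 := r0) (R := R) hfin hK.smooth fa.cont (fun y hy z h => ((hpk y hy z).2 h).1) hWu.cont hu.cont y
      have e' : (fun z => (Qs G r0 χ ch A.z R (QF (Γ := Γ) G χ ch A.z R u) z - u z) + u z) = Qs G r0 χ ch A.z R (QF (Γ := Γ) G χ ch A.z R u) := by
        funext z
        ring
      rw [e'] at e
      simp only [Pi.sub_apply, Pi.add_apply]
      rw [e]
      ring)
  refine nz.trans ?_
  -- numbers
  have r8 : R ^ (-8 : ℝ) ≤ R ^ (-(1 / 60) : ℝ) := Real.rpow_le_rpow_of_exponent_le hR1 (by norm_num)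
  have r5 : R ^ (-(1 / 5) : ℝ) ≤ R ^ (-(1 / 60) : ℝ) := Real.rpow_le_rpow_of_exponent_le hR1 (by norm_num)
  have r51 : R ^ (-(1 / 5) : ℝ) ≤ 1 := Real.rpow_le_one_of_one_le_of_nonpos hR1 (by norm_num)
  have r40 : R ^ (-(9 / 40) : ℝ) ≤ 1 := Real.rpow_le_one_of_one_le_of_nonpos hR1 (by norm_num)
  have hX : 0 ≤ R ^ (-(1 / 60) : ℝ) * nn G F u := mul_nonneg (hpow _).le hN
  have na : nP G r0 ({1} : Set Γ) 2 R (fun y : YS Γ d => Op (us G Φ r0 χ ch A R) (QF G χ ch A.z R u) y - aF G r0 R (fP G Φ χ ch A.z A.z1 R 1) (Qs G r0 χ ch A.z R (QF (Γ := Γ) G χ ch A.z R u)) y) ≤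
      2 * (R ^ (-(1 / 60) : ℝ) * nn G F u) := by
    refine t1.trans ?_
    have e1 : nP G r0 ({1} : Set Γ) 2 R (QF G χ ch A.z R u) ≤ 2 * nn G F u := by
      refine w3.trans (mul_le_mul_of_nonneg_right (by linarith) hN)
    have e2 := mul_le_mul r8 e1 (integral_nonneg fun z => by positivity) (hpow _).le
    linarith
  have nb : nP G r0 ({1} : Set Γ) 2 R (aF G r0 R (fP G Φ χ ch A.z A.z1 R 1) (fun z => Qs G r0 χ ch A.z R (QF (Γ := Γ) G χ ch A.z R u) z - u z)) ≤ 4 * (R ^ (-(1 / 60) : ℝ) * nn G F u) := by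
    refine hb1.trans ?_
    have e1 : (1 + R ^ (-(9 / 40) : ℝ)) ^ 2 ≤ 4 := by
      have := hpow (-(9 / 40) : ℝ)
      nlinarith
    exact mul_le_mul e1 (w2.trans (mul_le_mul_of_nonneg_right r5 hN)) (integral_nonneg fun z => by positivity) (by norm_num)
  have e70 : R ^ (-(1 / 70) : ℝ) * nn G F u = R ^ (1 / 60 - 1 / 70 : ℝ) * (R ^ (-(1 / 60) : ℝ) * nn G F u) := by
    rw [← mul_assoc, ← Real.rpow_add hR0]
    norm_num
  rw [e70]
  have e72 := mul_le_mul_of_nonneg_right n1 hX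
  have na' : nP G r0 ({1} : Set Γ) 2 R (Op (us G Φ r0 χ ch A R) (QF G χ ch A.z R u) - aF G r0 R (fP G Φ χ ch A.z A.z1 R 1) (Qs G r0 χ ch A.z R (QF (Γ := Γ) G χ ch A.z R u))) ≤
      2 * (R ^ (-(1 / 60) : ℝ) * nn G F u) := na
  have nbc' : nP G r0 ({1} : Set Γ) 2 R (aF G r0 R (fP G Φ χ ch A.z A.z1 R 1) (fun z => Qs G r0 χ ch A.z R (QF (Γ := Γ) G χ ch A.z R u) z - u z) +
      (aF G r0 R (fP G Φ χ ch A.z A.z1 R 1) u - fun y : YS Γ d => Complex.exp (((thP Φ f R 1 y.2 : ℝ) : ℂ) * Complex.I) * QF G χ ch A.z R u y)) ≤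
      2 * nP G r0 ({1} : Set Γ) 2 R (aF G r0 R (fP G Φ χ ch A.z A.z1 R 1) (fun z => Qs G r0 χ ch A.z R (QF (Γ := Γ) G χ ch A.z R u) z - u z)) +
      2 * nP G r0 ({1} : Set Γ) 2 R (fun y : YS Γ d => aF G r0 R (fP G Φ χ ch A.z A.z1 R 1) u y - Complex.exp (((thP Φ f R 1 y.2 : ℝ) : ℂ) * Complex.I) * QF G χ ch A.z R u y) := nbc
  linarith

end

end Pool.Agent.VD
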