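import Pool.Agent.helper80.VD.SpecF

/-!
# FC1 (project VD, MP_07c750_an, block F): a smooth flow is a `C¹` flow, and it is unique
-/

set_option autoImplicit false

open scoped ContDiff Topology InnerProductSpace
open MeasureTheory Filter Set

namespace Pool.Agent.VD

noncomputable section

/-- the partial derivative in the second variable -/
theorem FC1_par {F : Type} [NormedAddCommGroup F] [NormedSpace ℝ F] {Φ : ℝ → F → F}
    (hΦ : ContDiff ℝ ∞ (fun q : ℝ × F => Φ q.1 q.2)) (t : ℝ) (x : F) :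
    HasFDerivAt (Φ t) ((fderiv ℝ (fun q : ℝ × F => Φ q.1 q.2) (t, x)).comp (ContinuousLinearMap.inr ℝ ℝ F)) x := by
  have h1 : HasFDerivAt (fun q : ℝ × F => Φ q.1 q.2) (fderiv ℝ (fun q : ℝ × F => Φ q.1 q.2) (t, x)) (t, x) :=
    (hΦ.differentiable (by simp)).differentiableAt.hasFDerivAt
  have h2 : HasFDerivAt (fun y : F => (t, y)) (ContinuousLinearMap.inr ℝ ℝ F) x := hasFDerivAt_prodMk_right t x
  exact h1.comp x h2

theorem FC1_proof : FC1_stmt := by
  intro F _ _ _ f Φ hf hΦ hz hadd hode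
  obtain ⟨g, hg⟩ : ∃ g : ℝ × F → F, g = fun q : ℝ × F => Φ q.1 q.2 := ⟨_, rfl⟩
  have hgΦ : ∀ t x, g (t, x) = Φ t x := by intro t x; rw [hg]
  have hgs : ContDiff ℝ ∞ g := by rw [hg]; exact hΦ
  have hgd : Differentiable ℝ g := hgs.differentiable (by simp)
  have hfd : Differentiable ℝ f := hf.differentiable (by simp)
  have hpar : ∀ t x, HasFDerivAt (Φ t) ((fderiv ℝ g (t, x)).comp (ContinuousLinearMap.inr ℝ ℝ F)) x := by
    intro t x
    rw [hg]
    exact FC1_par hΦ t x
  have hpar' : ∀ t x, fderiv ℝ (Φ t) x = (fderiv ℝ g (t, x)).comp (ContinuousLinearMap.inr ℝ ℝ F) :=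
    fun t x => (hpar t x).fderiv
  have htime : ∀ q : ℝ × F, fderiv ℝ g q (1, 0) = f (g q) := by
    rintro ⟨t, x⟩
    have h1 : HasFDerivAt g (fderiv ℝ g (t, x)) (t, x) := (hgd _).hasFDerivAt
    have h2 : HasDerivAt (fun s : ℝ => (s, x)) ((1 : ℝ), (0 : F)) t := (hasDerivAt_id t).prodMk (hasDerivAt_const t x)
    have h3 : HasDerivAt (fun s : ℝ => g (s, x)) (fderiv ℝ g (t, x) (1, 0)) t := h1.comp_hasDerivAt t h2
    have h4 : HasDerivAt (fun s : ℝ => g (s, x)) (f (Φ t x)) t := by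
      have e1 : (fun s : ℝ => g (s, x)) = fun s => Φ s x := by funext s; rw [hgΦ]
      rw [e1]
      exact hode t x
    rw [h3.unique h4, hgΦ]
  have hDg : ContDiff ℝ ∞ (fderiv ℝ g) := hgs.fderiv_right (by simp)
  have hDgd : Differentiable ℝ (fderiv ℝ g) := hDg.differentiable (by simp)
  have hvar : ∀ x t, HasDerivAt (fun s => fderiv ℝ (Φ s) x) ((fderiv ℝ f (Φ t x)).comp (fderiv ℝ (Φ t) x)) t := by
    intro x t
    have h1 : HasFDerivAt (fderiv ℝ g) (fderiv ℝ (fderiv ℝ g) (t, x)) (t, x) := (hDgd _).hasFDerivAt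
    have h2 : HasDerivAt (fun s : ℝ => (s, x)) ((1 : ℝ), (0 : F)) t := (hasDerivAt_id t).prodMk (hasDerivAt_const t x)
    have h3 : HasDerivAt (fun s : ℝ => fderiv ℝ g (s, x)) (fderiv ℝ (fderiv ℝ g) (t, x) (1, 0)) t := h1.comp_hasDerivAt t h2
    have h4 : HasDerivAt (fun s : ℝ => (fderiv ℝ g (s, x)).comp (ContinuousLinearMap.inr ℝ ℝ F))
        ((fderiv ℝ (fderiv ℝ g) (t, x) (1, 0)).comp (ContinuousLinearMap.inr ℝ ℝ F)) t := by
      have h5 := (((ContinuousLinearMap.compL ℝ F (ℝ × F) F).flip (ContinuousLinearMap.inr ℝ ℝ F)).hasFDerivAt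
        (x := fderiv ℝ g (t, x))).comp_hasDerivAt t h3
      exact h5
    have e1 : (fun s => fderiv ℝ (Φ s) x) = fun s : ℝ => (fderiv ℝ g (s, x)).comp (ContinuousLinearMap.inr ℝ ℝ F) := by
      funext s
      exact hpar' s x
    have e2 : (fderiv ℝ f (Φ t x)).comp (fderiv ℝ (Φ t) x) = (fderiv ℝ (fderiv ℝ g) (t, x) (1, 0)).comp (ContinuousLinearMap.inr ℝ ℝ F) := by
      ext w
      rw [hpar' t x]
      simp only [ContinuousLinearMap.comp_apply, ContinuousLinearMap.inr_apply]
      have hsym : IsSymmSndFDerivAt ℝ g (t, x) := by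
        refine (hgs.contDiffAt (x := (t, x))).isSymmSndFDerivAt ?_
        rw [minSmoothness_of_isRCLikeNormedField]
        exact WithTop.coe_le_coe.2 le_top
      rw [hsym (1, 0) (0, w)]
      -- differentiate `q ↦ fderiv g q (1, 0) = f (g q)` in the direction `(0, w)`
      have h6 : HasFDerivAt (fun q : ℝ × F => fderiv ℝ g q (1, 0)) ((ContinuousLinearMap.apply ℝ F ((1 : ℝ), (0 : F))).comp (fderiv ℝ (fderiv ℝ g) (t, x))) (t, x) :=
        (ContinuousLinearMap.apply ℝ F ((1 : ℝ), (0 : F))).hasFDerivAt.comp (t, x) h1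
      have h7 : HasFDerivAt (fun q : ℝ × F => fderiv ℝ g q (1, 0)) ((fderiv ℝ f (g (t, x))).comp (fderiv ℝ g (t, x))) (t, x) := by
        have e3 : (fun q : ℝ × F => fderiv ℝ g q (1, 0)) = fun q => f (g q) := by
          funext q
          exact htime q
        rw [e3]
        exact (hfd _).hasFDerivAt.comp (t, x) (hgd _).hasFDerivAt
      have h8 := h6.unique h7
      have h9 := congrArg (fun L : ℝ × F →L[ℝ] F => L (0, w)) h8
      simp only [ContinuousLinearMap.comp_apply, ContinuousLinearMap.apply_apply] at h9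
      rw [h9, hgΦ]
    rw [e1, e2]
    exact h4
  have hdiff : ∀ t x, DifferentiableAt ℝ (Φ t) x := fun t x => (hpar t x).differentiableAt
  refine ⟨⟨⟨hz, fun x t => hode t x, hadd, hΦ.continuous⟩, hdiff, hvar, ?_⟩, ?_⟩
  · have e1 : (fun q : ℝ × F => fderiv ℝ (Φ q.1) q.2) = fun q : ℝ × F => (fderiv ℝ g q).comp (ContinuousLinearMap.inr ℝ ℝ F) := by
      funext q
      exact hpar' q.1 q.2
    rw [e1]
    exact hDg.continuous.clm_comp continuous_const
  · intro c hc t
    have hinv : ∀ (t : ℝ) (x : F), fderiv ℝ (Φ t) x (f x) = f (Φ t x) := by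
      intro t x
      have h1 : HasDerivAt (fun s : ℝ => Φ t (Φ s x)) (fderiv ℝ (Φ t) x (f x)) 0 := by
        have h2 : HasFDerivAt (Φ t) (fderiv ℝ (Φ t) x) (Φ 0 x) := by
          rw [hz]
          exact (hdiff t x).hasFDerivAt
        have h3 := hode 0 x
        rw [hz] at h3
        exact h2.comp_hasDerivAt 0 h3
      have h2 : HasDerivAt (fun s : ℝ => Φ t (Φ s x)) (f (Φ t x)) 0 := by
        have e1 : (fun s : ℝ => Φ t (Φ s x)) = fun s => Φ s (Φ t x) := by
          funext s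
          rw [← hadd, ← hadd, add_comm]
        rw [e1]
        have h3 := hode 0 (Φ t x)
        rw [hz] at h3
        exact h3
      exact h1.unique h2
    have hder : ∀ t : ℝ, HasDerivAt (fun s : ℝ => g (-s, c s)) 0 t := by
      intro t
      have h1 : HasFDerivAt g (fderiv ℝ g (-t, c t)) (-t, c t) := (hgd _).hasFDerivAt
      have h2 : HasDerivAt (fun s : ℝ => (-s, c s)) ((-1 : ℝ), f (c t)) t := (hasDerivAt_neg t).prodMk (hc t)
      have h3 : HasDerivAt (fun s : ℝ => g (-s, c s)) (fderiv ℝ g (-t, c t) (-1, f (c t))) t := h1.comp_hasDerivAt t h2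
      have e1 : ((-1 : ℝ), f (c t)) = -((1 : ℝ), (0 : F)) + (0, f (c t)) := by
        ext <;> simp
      have e2 : fderiv ℝ g (-t, c t) (0, f (c t)) = f (Φ (-t) (c t)) := by
        have h4 := hinv (-t) (c t)
        rw [hpar'] at h4
        simpa using h4
      have e3 : fderiv ℝ g (-t, c t) (-1, f (c t)) = 0 := by
        rw [e1, map_add, map_neg, htime, e2, hgΦ, neg_add_cancel]
      rw [e3] at h3
      exact h3
    have hconst := is_const_of_deriv_eq_zero (fun t => (hder t).differentiableAt) (fun t => (hder t).deriv) t 0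
    simp only [neg_zero, hgΦ, hz] at hconst
    have h5 : Φ t (Φ (-t) (c t)) = c t := by
      rw [← hadd, add_neg_cancel, hz]
    rw [← h5, hconst]

end

end Pool.Agent.VD
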