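import Pool.Agent.helper80.VD.SpecG

/-!
# GUR (project VD, MP_07c750_an, block G): uniform bounds of the Christoffel symbols and of the curvature on balls
-/

set_option autoImplicit false
set_option maxSynthPendingDepth 3

open scoped ContDiff Topology InnerProductSpace
open MeasureTheory Filter Set

namespace Pool.Agent.VD

noncomputable section

theorem GUR_fb {d : ℕ} (u v : V d) (D : V d →L[ℝ] V d →L[ℝ] V d) :
    ‖(1 / 2 : ℝ) • (D u v + D v u - (InnerProductSpace.toDual ℝ (V d)).symm ((innerSL ℝ v).comp ((ContinuousLinearMap.apply ℝ (V d) u).comp D)))‖ ≤ 2 * ‖u‖ * ‖v‖ * ‖D‖ := by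
  have h1 : ‖D u v‖ ≤ ‖D‖ * ‖u‖ * ‖v‖ := D.le_opNorm₂ u v
  have h2 : ‖D v u‖ ≤ ‖D‖ * ‖v‖ * ‖u‖ := D.le_opNorm₂ v u
  have h3 : ‖(InnerProductSpace.toDual ℝ (V d)).symm ((innerSL ℝ v).comp ((ContinuousLinearMap.apply ℝ (V d) u).comp D))‖ ≤ ‖D‖ * ‖u‖ * ‖v‖ := by
    rw [LinearIsometryEquiv.norm_map]
    refine ContinuousLinearMap.opNorm_le_bound _ (by positivity) ?_
    intro w
    have e1 : ((innerSL ℝ v).comp ((ContinuousLinearMap.apply ℝ (V d) u).comp D)) w = ⟪v, D w u⟫_ℝ := by simp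
    rw [e1]
    calc ‖⟪v, D w u⟫_ℝ‖ ≤ ‖v‖ * ‖D w u‖ := norm_inner_le_norm _ _
      _ ≤ ‖v‖ * (‖D‖ * ‖w‖ * ‖u‖) := mul_le_mul_of_nonneg_left (D.le_opNorm₂ w u) (norm_nonneg _)
      _ = ‖D‖ * ‖u‖ * ‖v‖ * ‖w‖ := by ring
  rw [norm_smul]
  have h4 := (norm_sub_le (D u v + D v u) ((InnerProductSpace.toDual ℝ (V d)).symm ((innerSL ℝ v).comp ((ContinuousLinearMap.apply ℝ (V d) u).comp D))))
  have h5 := norm_add_le (D u v) (D v u)
  have h6 : ‖(1 / 2 : ℝ)‖ = 1 / 2 := by norm_num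
  rw [h6]
  have h7 : 0 ≤ ‖D‖ * ‖u‖ * ‖v‖ := by positivity
  have e2 : ‖D‖ * ‖v‖ * ‖u‖ = ‖D‖ * ‖u‖ * ‖v‖ := by ring
  have e3 : 2 * ‖u‖ * ‖v‖ * ‖D‖ = 2 * (‖D‖ * ‖u‖ * ‖v‖) := by ring
  rw [e2] at h2
  rw [e3]
  linarith

/-- the Koszul combination as a continuous linear map -/
def GUR_L {d : ℕ} (u v : V d) : (V d →L[ℝ] V d →L[ℝ] V d) →L[ℝ] V d :=
  LinearMap.mkContinuous
    { toFun := fun D => (1 / 2 : ℝ) • (D u v + D v u - (InnerProductSpace.toDual ℝ (V d)).symm ((innerSL ℝ v).comp ((ContinuousLinearMap.apply ℝ (V d) u).comp D)))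
      map_add' := by
        intro D E
        rw [ContinuousLinearMap.comp_add, ContinuousLinearMap.comp_add, map_add, ← smul_add]
        congr 1
        simp only [add_apply]
        abel
      map_smul' := by
        intro c D
        have e1 : (InnerProductSpace.toDual ℝ (V d)).symm ((innerSL ℝ v).comp ((ContinuousLinearMap.apply ℝ (V d) u).comp (c • D))) =
            c • (InnerProductSpace.toDual ℝ (V d)).symm ((innerSL ℝ v).comp ((ContinuousLinearMap.apply ℝ (V d) u).comp D)) := by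
          rw [ContinuousLinearMap.comp_smul, ContinuousLinearMap.comp_smul, map_smulₛₗ]
          simp
        rw [e1]
        simp only [smul_apply, RingHom.id_apply]
        rw [smul_comm c (1 / 2 : ℝ), smul_sub c, smul_add c] } (2 * ‖u‖ * ‖v‖) (GUR_fb u v)

theorem GUR_Ln {d : ℕ} (u v : V d) : ‖(GUR_L u v : (V d →L[ℝ] V d →L[ℝ] V d) →L[ℝ] V d)‖ ≤ 2 * ‖u‖ * ‖v‖ :=
  LinearMap.mkContinuous_norm_le _ (by positivity) _

theorem GUR_chr {d : ℕ} {G : V d → V d →L[ℝ] V d} (hG : IsMetric G) (x u v : V d) :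
    Chr G x u v = IG G x (GUR_L u v (fderiv ℝ G x)) := by
  have hd : DifferentiableAt ℝ G x := (hG.smooth.differentiable (by simp)) x
  have h1 : fderiv ℝ (fun y => ⟪G y u, v⟫_ℝ) x = (innerSL ℝ v).comp ((ContinuousLinearMap.apply ℝ (V d) u).comp (fderiv ℝ G x)) := by
    have h2 : HasFDerivAt (fun y => innerSL ℝ v (ContinuousLinearMap.apply ℝ (V d) u (G y))) ((innerSL ℝ v).comp ((ContinuousLinearMap.apply ℝ (V d) u).comp (fderiv ℝ G x))) x :=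
      (innerSL ℝ v).hasFDerivAt.comp x ((ContinuousLinearMap.apply ℝ (V d) u).hasFDerivAt.comp x hd.hasFDerivAt)
    have h3 : (fun y => ⟪G y u, v⟫_ℝ) = fun y => innerSL ℝ v (ContinuousLinearMap.apply ℝ (V d) u (G y)) := by
      funext y
      simp [real_inner_comm]
    rw [h3]
    exact h2.fderiv
  unfold Chr IG gradient
  rw [h1]
  rfl

theorem GUR_sm {d : ℕ} {G : V d → V d →L[ℝ] V d} (hG : IsMetric G) (hA : ContDiff ℝ ∞ (IG G)) (u v : V d) :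
    ContDiff ℝ ∞ (fun x => Chr G x u v) := by
  have e1 : (fun x => Chr G x u v) = fun x => IG G x (GUR_L u v (fderiv ℝ G x)) := by
    funext x
    exact GUR_chr hG x u v
  rw [e1]
  have h1 : ContDiff ℝ ∞ (fderiv ℝ G) := hG.smooth.fderiv_right (by simp)
  exact hA.clm_apply ((GUR_L u v).contDiff.comp h1)

theorem GUR_it {d : ℕ} {G : V d → V d →L[ℝ] V d} (hG : IsMetric G) (hA : ContDiff ℝ ∞ (IG G)) {m b : ℝ} (hb : 0 ≤ b)
    (h1 : ∀ n ≤ 2, ∀ x, ‖x‖ ≤ m → ‖iteratedFDeriv ℝ n (IG G) x‖ ≤ b)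
    (h2 : ∀ n ≤ 2, ∀ x, ‖x‖ ≤ m → ‖iteratedFDeriv ℝ (n + 1) G x‖ ≤ b) (u v : V d) (n : ℕ) (hn : n ≤ 2) (x : V d) (hx : ‖x‖ ≤ m) :
    ‖iteratedFDeriv ℝ n (fun x => Chr G x u v) x‖ ≤ 8 * b ^ 2 * ‖u‖ * ‖v‖ := by
  have hD : ContDiff ℝ ∞ (fderiv ℝ G) := hG.smooth.fderiv_right (by simp)
  have hS : ContDiff ℝ ∞ (fun x => GUR_L u v (fderiv ℝ G x)) := (GUR_L u v).contDiff.comp hD
  have e1 : (fun x => Chr G x u v) = fun x => IG G x (GUR_L u v (fderiv ℝ G x)) := by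
    funext x
    exact GUR_chr hG x u v
  rw [e1]
  have hle : ∀ k : ℕ, ((k : ℕ∞ω)) ≤ (∞ : ℕ∞ω) := fun k => by exact_mod_cast le_top
  refine (norm_iteratedFDeriv_clm_apply hA hS x (hle n)).trans ?_
  have h3 : ∀ k ≤ 2, ‖iteratedFDeriv ℝ k (fun x => GUR_L u v (fderiv ℝ G x)) x‖ ≤ 2 * ‖u‖ * ‖v‖ * b := by
    intro k hk
    have h4 := (GUR_L u v).norm_iteratedFDeriv_comp_left (f := fderiv ℝ G) (x := x) (n := k) hD.contDiffAt (hle k)
    refine h4.trans ?_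
    rw [norm_iteratedFDeriv_fderiv]
    exact mul_le_mul (GUR_Ln u v) (h2 k hk x hx) (norm_nonneg _) (by positivity)
  have h4 : ∀ i ∈ Finset.range (n + 1), ((n.choose i : ℕ) : ℝ) * ‖iteratedFDeriv ℝ i (IG G) x‖ * ‖iteratedFDeriv ℝ (n - i) (fun x => GUR_L u v (fderiv ℝ G x)) x‖ ≤
      ((n.choose i : ℕ) : ℝ) * (b * (2 * ‖u‖ * ‖v‖ * b)) := by
    intro i hi
    rw [Finset.mem_range] at hi
    rw [mul_assoc]
    refine mul_le_mul_of_nonneg_left ?_ (Nat.cast_nonneg _)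
    exact mul_le_mul (h1 i (by omega) x hx) (h3 (n - i) (by omega)) (norm_nonneg _) hb
  refine (Finset.sum_le_sum h4).trans ?_
  rw [← Finset.sum_mul]
  have h5 : (∑ i ∈ Finset.range (n + 1), ((n.choose i : ℕ) : ℝ)) = 2 ^ n := by
    have := Nat.sum_range_choose n
    exact_mod_cast this
  rw [h5]
  have h6 : (2 : ℝ) ^ n ≤ 4 := by
    have : (2 : ℝ) ^ n ≤ 2 ^ 2 := pow_le_pow_right₀ (by norm_num) hn
    linarith
  have h7 : 0 ≤ b * (2 * ‖u‖ * ‖v‖ * b) := by positivity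
  calc (2 : ℝ) ^ n * (b * (2 * ‖u‖ * ‖v‖ * b)) ≤ 4 * (b * (2 * ‖u‖ * ‖v‖ * b)) := mul_le_mul_of_nonneg_right h6 h7
    _ = 8 * b ^ 2 * ‖u‖ * ‖v‖ := by ring

/-- `ChT` from `Chr` -/
theorem GUR_cht {d : ℕ} {F : V d → V d} {c : ℝ} (hc : 0 ≤ c) (hF : ∀ w, ‖F w‖ ≤ c * ‖w‖) (ξ : V d) :
    ‖∑ i : Fin d, ⟪ξ, F (EuclideanSpace.single i 1)⟫_ℝ • (EuclideanSpace.single i 1 : V d)‖ ≤ d * c * ‖ξ‖ := by
  refine (norm_sum_le _ _).trans ?_
  have h1 : ∀ i ∈ (Finset.univ : Finset (Fin d)), ‖⟪ξ, F (EuclideanSpace.single i 1)⟫_ℝ • (EuclideanSpace.single i 1 : V d)‖ ≤ c * ‖ξ‖ := by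
    intro i _
    have e1 : ‖(EuclideanSpace.single i 1 : V d)‖ = 1 := by simp
    rw [norm_smul, e1, mul_one]
    have h2 : ‖F (EuclideanSpace.single i 1)‖ ≤ c := by
      have h3 := hF (EuclideanSpace.single i 1)
      rwa [e1, mul_one] at h3
    calc ‖⟪ξ, F (EuclideanSpace.single i 1)⟫_ℝ‖ ≤ ‖ξ‖ * ‖F (EuclideanSpace.single i 1)‖ := norm_inner_le_norm _ _
      _ ≤ ‖ξ‖ * c := mul_le_mul_of_nonneg_left h2 (norm_nonneg _)
      _ = c * ‖ξ‖ := mul_comm _ _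
  refine (Finset.sum_le_sum h1).trans ?_
  rw [Finset.sum_const, Finset.card_univ, Fintype.card_fin, nsmul_eq_mul]
  exact le_of_eq (by ring)

theorem GUR_proof (hGIN : GIN_stmt) (hGUI : GUI_stmt) (hGCH : GCH_stmt) : GUR_stmt := by
  intro d B m
  obtain ⟨a0, h0⟩ := hGUI d B m 0
  obtain ⟨a1, h1⟩ := hGUI d B m 1
  obtain ⟨a2, h2⟩ := hGUI d B m 2
  obtain ⟨b, hb⟩ : ∃ b : ℝ, b = |a0| + |a1| + |a2| + (|B m 1| + |B m 2| + |B m 3|) := ⟨_, rfl⟩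
  have p0 := abs_nonneg a0
  have p1 := abs_nonneg a1
  have p2 := abs_nonneg a2
  have q1 := abs_nonneg (B m 1)
  have q2 := abs_nonneg (B m 2)
  have q3 := abs_nonneg (B m 3)
  have hb0 : 0 ≤ b := by rw [hb]; linarith
  obtain ⟨c, hc⟩ : ∃ c : ℝ, c = 8 * b ^ 2 := ⟨_, rfl⟩
  have hc0 : 0 ≤ c := by rw [hc]; positivity
  have hd0 : (0 : ℝ) ≤ d := Nat.cast_nonneg d
  refine ⟨(d + 1) * c + (2 * c + 4 * c ^ 2), ?_⟩
  intro G hG hlo hbd
  obtain ⟨-, -, -, hA, -⟩ := hGIN d G hG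
  obtain ⟨hsym, hlin, -⟩ := hGCH d G hG
  have r1 : ∀ n ≤ 2, ∀ x, ‖x‖ ≤ (m : ℝ) → ‖iteratedFDeriv ℝ n (IG G) x‖ ≤ b := by
    intro n hn x hx
    interval_cases n
    · have := (h0 G hG hlo hbd x hx).trans (le_abs_self a0)
      rw [hb]; linarith
    · have := (h1 G hG hlo hbd x hx).trans (le_abs_self a1)
      rw [hb]; linarith
    · have := (h2 G hG hlo hbd x hx).trans (le_abs_self a2)
      rw [hb]; linarith
  have r2 : ∀ n ≤ 2, ∀ x, ‖x‖ ≤ (m : ℝ) → ‖iteratedFDeriv ℝ (n + 1) G x‖ ≤ b := by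
    intro n hn x hx
    interval_cases n
    · have := (hbd m 1 x hx).trans (le_abs_self _)
      rw [hb]; linarith
    · have := (hbd m 2 x hx).trans (le_abs_self _)
      rw [hb]; linarith
    · have := (hbd m 3 x hx).trans (le_abs_self _)
      rw [hb]; linarith
  have hit : ∀ (u v : V d) (n : ℕ), n ≤ 2 → ∀ x : V d, ‖x‖ ≤ m → ‖iteratedFDeriv ℝ n (fun x => Chr G x u v) x‖ ≤ c * ‖u‖ * ‖v‖ := by
    intro u v n hn x hx
    rw [hc]
    exact GUR_it hG hA hb0 r1 r2 u v n hn x hx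
  have hsm : ∀ u v : V d, ContDiff ℝ ∞ (fun x => Chr G x u v) := fun u v => GUR_sm hG hA u v
  -- `Chr`
  have k0 : ∀ x u v : V d, ‖x‖ ≤ m → ‖Chr G x u v‖ ≤ c * ‖u‖ * ‖v‖ := by
    intro x u v hx
    have h := hit u v 0 (by omega) x hx
    rwa [norm_iteratedFDeriv_zero] at h
  have k1 : ∀ x u v : V d, ‖x‖ ≤ m → ‖fderiv ℝ (fun x => Chr G x u v) x‖ ≤ c * ‖u‖ * ‖v‖ := by
    intro x u v hx
    have h := hit u v 1 (by omega) x hx
    rwa [norm_iteratedFDeriv_one] at h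
  have k2 : ∀ x u v : V d, ‖x‖ ≤ m → ‖fderiv ℝ (fderiv ℝ (fun x => Chr G x u v)) x‖ ≤ c * ‖u‖ * ‖v‖ := by
    intro x u v hx
    have h := hit u v 2 le_rfl x hx
    rwa [← norm_iteratedFDeriv_fderiv, norm_iteratedFDeriv_one] at h
  have hconv : Convex ℝ (Metric.closedBall (0 : V d) m) := convex_closedBall _ _
  have hmem : ∀ x : V d, ‖x‖ ≤ m → x ∈ Metric.closedBall (0 : V d) m := fun x hx => mem_closedBall_zero_iff.2 hx
  have l0 : ∀ x y u v : V d, ‖x‖ ≤ m → ‖y‖ ≤ m → ‖Chr G x u v - Chr G y u v‖ ≤ c * ‖x - y‖ * ‖u‖ * ‖v‖ := by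
    intro x y u v hx hy
    have h := hconv.norm_image_sub_le_of_norm_fderiv_le (𝕜 := ℝ) (f := fun x => Chr G x u v) (C := c * ‖u‖ * ‖v‖)
      (fun z _ => (hsm u v).differentiable (by simp) z) (fun z hz => k1 z u v (mem_closedBall_zero_iff.1 hz)) (hmem y hy) (hmem x hx)
    have e : c * ‖u‖ * ‖v‖ * ‖x - y‖ = c * ‖x - y‖ * ‖u‖ * ‖v‖ := by ring
    rw [e] at h
    exact h
  have l1 : ∀ x y u v w : V d, ‖x‖ ≤ m → ‖y‖ ≤ m → ‖fderiv ℝ (fun x => Chr G x v w) x u - fderiv ℝ (fun x => Chr G x v w) y u‖ ≤ c * ‖x - y‖ * ‖u‖ * ‖v‖ * ‖w‖ := by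
    intro x y u v w hx hy
    have hd1 : ContDiff ℝ ∞ (fderiv ℝ (fun x => Chr G x v w)) := (hsm v w).fderiv_right (by simp)
    have h := hconv.norm_image_sub_le_of_norm_fderiv_le (𝕜 := ℝ) (f := fderiv ℝ (fun x => Chr G x v w)) (C := c * ‖v‖ * ‖w‖)
      (fun z _ => hd1.differentiable (by simp) z) (fun z hz => k2 z v w (mem_closedBall_zero_iff.1 hz)) (hmem y hy) (hmem x hx)
    have h' := (fderiv ℝ (fun x => Chr G x v w) x - fderiv ℝ (fun x => Chr G x v w) y).le_of_opNorm_le h u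
    have e : c * ‖v‖ * ‖w‖ * ‖x - y‖ * ‖u‖ = c * ‖x - y‖ * ‖u‖ * ‖v‖ * ‖w‖ := by ring
    rw [e] at h'
    exact h'
  -- linearity in the second argument
  have hsub : ∀ x u v w : V d, Chr G x u (v - w) = Chr G x u v - Chr G x u w := by
    intro x u v w
    rw [hsym x u (v - w), sub_eq_add_neg, show -w = (-1 : ℝ) • w by simp, hlin, hsym x v u, hsym x w u]
    simp [sub_eq_add_neg]
  have t0 : ∀ x u v w : V d, ‖x‖ ≤ m → ‖Chr G x u (Chr G x v w)‖ ≤ c ^ 2 * ‖u‖ * ‖v‖ * ‖w‖ := by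
    intro x u v w hx
    refine (k0 x u _ hx).trans ?_
    have h := mul_le_mul_of_nonneg_left (k0 x v w hx) (mul_nonneg hc0 (norm_nonneg u))
    refine h.trans (le_of_eq ?_)
    ring
  have t1 : ∀ x y u v w : V d, ‖x‖ ≤ m → ‖y‖ ≤ m → ‖Chr G x u (Chr G x v w) - Chr G y u (Chr G y v w)‖ ≤ 2 * c ^ 2 * ‖x - y‖ * ‖u‖ * ‖v‖ * ‖w‖ := by
    intro x y u v w hx hy
    have e : Chr G x u (Chr G x v w) - Chr G y u (Chr G y v w) = (Chr G x u (Chr G x v w) - Chr G y u (Chr G x v w)) + Chr G y u (Chr G x v w - Chr G y v w) := by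
      rw [hsub]
      abel
    rw [e]
    refine (norm_add_le _ _).trans ?_
    have a1 := l0 x y u (Chr G x v w) hx hy
    have a2 := mul_le_mul_of_nonneg_left (k0 x v w hx) (show 0 ≤ c * ‖x - y‖ * ‖u‖ by positivity)
    have a3 := k0 y u (Chr G x v w - Chr G y v w) hy
    have a4 := mul_le_mul_of_nonneg_left (l0 x y v w hx hy) (show 0 ≤ c * ‖u‖ by positivity)
    have e2 : c * ‖x - y‖ * ‖u‖ * (c * ‖v‖ * ‖w‖) + c * ‖u‖ * (c * ‖x - y‖ * ‖v‖ * ‖w‖) = 2 * c ^ 2 * ‖x - y‖ * ‖u‖ * ‖v‖ * ‖w‖ := by ring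
    linarith
  have hcC : c ≤ (d + 1) * c + (2 * c + 4 * c ^ 2) := by nlinarith [mul_nonneg hd0 hc0, sq_nonneg c]
  have hdC : d * c ≤ (d + 1) * c + (2 * c + 4 * c ^ 2) := by nlinarith [mul_nonneg hd0 hc0, sq_nonneg c]
  have hRC : 2 * c + 4 * c ^ 2 ≤ (d + 1) * c + (2 * c + 4 * c ^ 2) := by nlinarith [mul_nonneg hd0 hc0]
  refine ⟨?_, ?_, ?_, ?_⟩
  · intro x u v hx
    constructor
    · refine (k0 x u v hx).trans ?_
      exact mul_le_mul_of_nonneg_right (mul_le_mul_of_nonneg_right hcC (norm_nonneg _)) (norm_nonneg _)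
    · have h := GUR_cht (F := fun w => Chr G x u w) (c := c * ‖u‖) (by positivity) (fun w => k0 x u w hx) v
      have e : (d : ℝ) * (c * ‖u‖) * ‖v‖ = d * c * ‖u‖ * ‖v‖ := by ring
      rw [e] at h
      exact h.trans (mul_le_mul_of_nonneg_right (mul_le_mul_of_nonneg_right hdC (norm_nonneg _)) (norm_nonneg _))
  · intro x y u v hx hy
    constructor
    · refine (l0 x y u v hx hy).trans ?_
      refine mul_le_mul_of_nonneg_right (mul_le_mul_of_nonneg_right (mul_le_mul_of_nonneg_right hcC (norm_nonneg _)) (norm_nonneg _)) (norm_nonneg _)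
    · have h := GUR_cht (F := fun w => Chr G x u w - Chr G y u w) (c := c * ‖x - y‖ * ‖u‖) (by positivity) (fun w => l0 x y u w hx hy) v
      have e : (d : ℝ) * (c * ‖x - y‖ * ‖u‖) * ‖v‖ = d * c * ‖x - y‖ * ‖u‖ * ‖v‖ := by ring
      rw [e] at h
      have e2 : ChT G x u v - ChT G y u v = ∑ i : Fin d, ⟪v, (fun w => Chr G x u w - Chr G y u w) (EuclideanSpace.single i 1)⟫_ℝ • (EuclideanSpace.single i 1 : V d) := by
        unfold ChT
        rw [← Finset.sum_sub_distrib]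
        refine Finset.sum_congr rfl fun i _ => ?_
        rw [← sub_smul, ← inner_sub_right]
      rw [e2]
      refine h.trans ?_
      refine mul_le_mul_of_nonneg_right (mul_le_mul_of_nonneg_right (mul_le_mul_of_nonneg_right hdC (norm_nonneg _)) (norm_nonneg _)) (norm_nonneg _)
  · intro x u v w hx
    have a1 := (fderiv ℝ (fun y => Chr G y v w) x).le_of_opNorm_le (k1 x v w hx) u
    have a2 := (fderiv ℝ (fun y => Chr G y u w) x).le_of_opNorm_le (k1 x u w hx) v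
    have a3 := t0 x u v w hx
    have a4 := t0 x v u w hx
    have b1 : ‖Riem G x u v w‖ ≤ ‖fderiv ℝ (fun y => Chr G y v w) x u‖ + ‖fderiv ℝ (fun y => Chr G y u w) x v‖ + ‖Chr G x u (Chr G x v w)‖ + ‖Chr G x v (Chr G x u w)‖ := by
      unfold Riem
      refine (norm_sub_le _ _).trans (add_le_add ((norm_add_le _ _).trans (add_le_add (norm_sub_le _ _) le_rfl)) le_rfl)
    have e1 : c * ‖v‖ * ‖w‖ * ‖u‖ + c * ‖u‖ * ‖w‖ * ‖v‖ + c ^ 2 * ‖u‖ * ‖v‖ * ‖w‖ + c ^ 2 * ‖v‖ * ‖u‖ * ‖w‖ = (2 * c + 2 * c ^ 2) * (‖u‖ * ‖v‖ * ‖w‖) := by ring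
    have e2 : (2 * c + 2 * c ^ 2) * (‖u‖ * ‖v‖ * ‖w‖) ≤ ((d + 1) * c + (2 * c + 4 * c ^ 2)) * (‖u‖ * ‖v‖ * ‖w‖) := by
      refine mul_le_mul_of_nonneg_right ?_ (by positivity)
      nlinarith [mul_nonneg hd0 hc0, sq_nonneg c]
    have e3 : ((d + 1) * c + (2 * c + 4 * c ^ 2)) * ‖u‖ * ‖v‖ * ‖w‖ = ((d + 1) * c + (2 * c + 4 * c ^ 2)) * (‖u‖ * ‖v‖ * ‖w‖) := by ring
    rw [e3]
    linarith
  · intro x y u v w hx hy
    have a1 := l1 x y u v w hx hy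
    have a2 := l1 x y v u w hx hy
    have a3 := t1 x y u v w hx hy
    have a4 := t1 x y v u w hx hy
    have b0 : Riem G x u v w - Riem G y u v w = ((fderiv ℝ (fun y => Chr G y v w) x u - fderiv ℝ (fun y => Chr G y v w) y u) - (fderiv ℝ (fun y => Chr G y u w) x v - fderiv ℝ (fun y => Chr G y u w) y v)) +
        (Chr G x u (Chr G x v w) - Chr G y u (Chr G y v w)) - (Chr G x v (Chr G x u w) - Chr G y v (Chr G y u w)) := by
      unfold Riem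
      abel
    have b1 : ‖Riem G x u v w - Riem G y u v w‖ ≤ ‖fderiv ℝ (fun y => Chr G y v w) x u - fderiv ℝ (fun y => Chr G y v w) y u‖ + ‖fderiv ℝ (fun y => Chr G y u w) x v - fderiv ℝ (fun y => Chr G y u w) y v‖ +
        ‖Chr G x u (Chr G x v w) - Chr G y u (Chr G y v w)‖ + ‖Chr G x v (Chr G x u w) - Chr G y v (Chr G y u w)‖ := by
      rw [b0]
      refine (norm_sub_le _ _).trans (add_le_add ((norm_add_le _ _).trans (add_le_add (norm_sub_le _ _) le_rfl)) le_rfl)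
    have e1 : c * ‖x - y‖ * ‖u‖ * ‖v‖ * ‖w‖ + c * ‖x - y‖ * ‖v‖ * ‖u‖ * ‖w‖ + 2 * c ^ 2 * ‖x - y‖ * ‖u‖ * ‖v‖ * ‖w‖ + 2 * c ^ 2 * ‖x - y‖ * ‖v‖ * ‖u‖ * ‖w‖ =
        (2 * c + 4 * c ^ 2) * (‖x - y‖ * ‖u‖ * ‖v‖ * ‖w‖) := by ring
    have e2 : (2 * c + 4 * c ^ 2) * (‖x - y‖ * ‖u‖ * ‖v‖ * ‖w‖) ≤ ((d + 1) * c + (2 * c + 4 * c ^ 2)) * (‖x - y‖ * ‖u‖ * ‖v‖ * ‖w‖) :=
      mul_le_mul_of_nonneg_right hRC (by positivity)
    have e3 : ((d + 1) * c + (2 * c + 4 * c ^ 2)) * ‖x - y‖ * ‖u‖ * ‖v‖ * ‖w‖ = ((d + 1) * c + (2 * c + 4 * c ^ 2)) * (‖x - y‖ * ‖u‖ * ‖v‖ * ‖w‖) := by ring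
    rw [e3]
    linarith

end

end Pool.Agent.VD
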