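import Mathlib
import Pool.Agent.helper93.VD.SpecB1

/-!
# LGB (project VD, MP_07c750_an, block B1): growth of the determinant
-/

set_option autoImplicit false

open scoped ContDiff Topology InnerProductSpace
open MeasureTheory Filter Set

namespace Pool.Agent.VD

noncomputable section

theorem LGB_det {m : ℕ} (X : W m →L[ℝ] W m) {a : ℝ} (ha : 0 < a) (h : ∀ w, a * ‖w‖ ≤ ‖X w‖) : a ^ m ≤ |X.det| := by
  have hinj : Function.Injective X := by
    intro x y hxy
    have h1 := h (x - y)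
    rw [map_sub, hxy, sub_self, norm_zero] at h1
    have h2 : ‖x - y‖ ≤ 0 := by
      by_contra hcon
      have := mul_pos ha (not_le.1 hcon)
      linarith
    exact sub_eq_zero.1 (norm_le_zero_iff.1 h2)
  have hsurj : Function.Surjective X := by
    have h1 : Function.Injective (X : W m →ₗ[ℝ] W m) := hinj
    exact LinearMap.surjective_of_injective h1
  have hsub : Metric.ball (0 : W m) a ⊆ X '' Metric.ball 0 1 := by
    intro y hy
    obtain ⟨x, rfl⟩ := hsurj y
    refine ⟨x, ?_, rfl⟩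
    rw [mem_ball_zero_iff] at hy ⊢
    have h1 := h x
    by_contra hcon
    have h2 : a * 1 ≤ a * ‖x‖ := mul_le_mul_of_nonneg_left (not_lt.1 hcon) ha.le
    linarith
  have h1 := measure_mono (μ := (volume : Measure (W m))) hsub
  rw [Measure.addHaar_image_continuousLinearMap, Measure.addHaar_ball_of_pos _ _ ha, finrank_euclideanSpace_fin] at h1
  have h0 : (volume : Measure (W m)) (Metric.ball 0 1) ≠ 0 := (Metric.measure_ball_pos _ _ one_pos).ne'
  have ht : (volume : Measure (W m)) (Metric.ball 0 1) ≠ ⊤ := measure_ball_lt_top.ne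
  have h2 : ENNReal.ofReal (a ^ m) ≤ ENNReal.ofReal |X.det| := by
    by_contra hcon
    have h3 := ENNReal.mul_lt_mul_left h0 ht (not_le.1 hcon)
    exact absurd h1 (not_le.2 h3)
  exact (ENNReal.ofReal_le_ofReal_iff (abs_nonneg _)).1 h2

theorem LGB_bk {m : ℕ} (T : Z m →L[ℝ] Z m) (w : W m) : Bk T w = (T (0, w)).1 := by
  simp [Bk]

theorem LGB_proof (hLPC : LPC_stmt) (hLQM : LQM_stmt) (hLDE : LDE_stmt) : LGB_stmt := by
  intro m c C hm hc hC
  obtain ⟨K, hK, hP⟩ := hLPC m c C hc hC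
  obtain ⟨K2, hK2, hQ⟩ := hLQM m c C hc hC
  obtain ⟨K1, hK1, hD⟩ := hLDE m (C + K) (by linarith)
  obtain ⟨σ, hσ⟩ : ∃ σ : ℝ, σ = Real.sqrt (1 + c) := ⟨_, rfl⟩
  obtain ⟨κ, hκ⟩ : ∃ κ : ℝ, κ = Real.sqrt K := ⟨_, rfl⟩
  have hσ2 : σ ^ 2 = 1 + c := by rw [hσ]; exact Real.sq_sqrt (by linarith)
  have hκ2 : κ ^ 2 = K := by rw [hκ]; exact Real.sq_sqrt (by linarith)
  have hσ1 : 1 < σ := by
    rw [hσ, Real.lt_sqrt (by norm_num)]
    linarith
  have hκ1 : 1 ≤ κ := by
    rw [hκ, Real.one_le_sqrt]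
    exact hK
  have hσ0 : 0 < σ := by linarith
  have hκ0 : 0 < κ := by linarith
  have hdB : ∀ T : Z m →L[ℝ] Z m, 0 ≤ dB T := fun T => abs_nonneg _
  -- one step
  have hone : ∀ L : ℕ → Z m →L[ℝ] Z m, (∀ i, LH c C (L i)) → dB (pl L 1) ≤ K1 := by
    intro L hL
    have hX : ∀ x, ‖x‖ ≤ (C + K) * ‖Bk (pl L 1) x‖ ∧ ‖Bk (pl L 1) x‖ ≤ (C + K) * ‖x‖ := by
      intro x
      obtain ⟨-, -, -, h4⟩ := hP L hL 1 le_rfl x
      rw [LGB_bk]
      have h5 : ‖(pl L 1 (0, x)).1‖ ≤ C * ‖x‖ := by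
        have e1 : pl L 1 (0, x) = L 0 (0, x) := by simp [pl]
        have e2 : ‖((0 : W m), x)‖ = ‖x‖ := by simp [Prod.norm_def]
        rw [e1]
        have e3 := (hL 0).bd (0, x)
        rw [e2] at e3
        exact (norm_fst_le _).trans e3
      constructor
      · rw [pow_one] at h4
        have h6 : ‖x‖ ^ 2 ≤ ((C + K) * ‖(pl L 1 (0, x)).1‖) ^ 2 := by
          have e1 : ‖x‖ ^ 2 ≤ (1 + c) * ‖x‖ ^ 2 := by nlinarith [sq_nonneg ‖x‖]
          have e2 : K * ‖(pl L 1 (0, x)).1‖ ^ 2 ≤ ((C + K) * ‖(pl L 1 (0, x)).1‖) ^ 2 := by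
            rw [mul_pow]
            refine mul_le_mul_of_nonneg_right ?_ (sq_nonneg _)
            nlinarith
          linarith
        exact (pow_le_pow_iff_left₀ (norm_nonneg _) (mul_nonneg (by linarith) (norm_nonneg _)) (by norm_num)).1 h6
      · exact h5.trans (mul_le_mul_of_nonneg_right (by linarith) (norm_nonneg _))
    exact (hD _ _ hX hX).2.1
  refine ⟨K2 * K1 + κ ^ m, m * Real.log σ, ?_, ?_, ?_⟩
  · have h1 : 1 ≤ K2 * K1 := by nlinarith
    have h2 : 0 < κ ^ m := pow_pos hκ0 m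
    linarith
  · have h1 : (0 : ℝ) < m := by exact_mod_cast hm
    exact mul_pos h1 (Real.log_pos hσ1)
  intro L hL n hn
  have hKp : 0 ≤ K2 * K1 := by nlinarith
  constructor
  · have hup : ∀ n : ℕ, 1 ≤ n → dB (pl L n) ≤ (K2 * K1) ^ n := by
      intro n hn
      induction n, hn using Nat.le_induction with
      | base =>
        rw [pow_one]
        have h1 := hone L hL
        nlinarith
      | succ n hn ih =>
        obtain ⟨h1, -⟩ := hQ L hL n 1 hn le_rfl
        have h2 := hone (fun i => L (n + i)) (fun i => hL _)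
        have h3 : dB (pl L n) * dB (pl (fun i => L (n + i)) 1) ≤ (K2 * K1) ^ n * K1 :=
          mul_le_mul ih h2 (hdB _) (pow_nonneg hKp n)
        have h4 : K2 * (dB (pl L n) * dB (pl (fun i => L (n + i)) 1)) ≤ K2 * ((K2 * K1) ^ n * K1) :=
          mul_le_mul_of_nonneg_left h3 (by linarith)
        have h5 : K2 * ((K2 * K1) ^ n * K1) = (K2 * K1) ^ (n + 1) := by ring
        rw [← h5]
        exact h1.trans h4
    refine (hup n hn).trans (pow_le_pow_left₀ hKp ?_ n)
    have h2 : 0 < κ ^ m := pow_pos hκ0 m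
    linarith
  · have hlow : (σ ^ n / κ) ^ m ≤ dB (pl L n) := by
      refine LGB_det (Bk (pl L n)) (by positivity) ?_
      intro w
      obtain ⟨-, -, -, h4⟩ := hP L hL n hn w
      rw [LGB_bk]
      have h6 : (σ ^ n / κ * ‖w‖) ^ 2 ≤ ‖(pl L n (0, w)).1‖ ^ 2 := by
        rw [mul_pow, div_pow, ← pow_mul, mul_comm n 2, pow_mul, hσ2, hκ2, div_mul_eq_mul_div, div_le_iff₀ (by linarith)]
        linarith
      exact (pow_le_pow_iff_left₀ (by positivity) (norm_nonneg _) (by norm_num)).1 h6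
    have hexp : Real.exp (m * Real.log σ * n) = κ ^ m * (σ ^ n / κ) ^ m := by
      rw [← mul_pow, mul_div_cancel₀ _ hκ0.ne', ← pow_mul]
      have e1 : (m : ℝ) * Real.log σ * n = ((n * m : ℕ) : ℝ) * Real.log σ := by push_cast; ring
      rw [e1, ← Real.log_pow, Real.exp_log (pow_pos hσ0 _)]
    rw [hexp]
    have h1 : κ ^ m * (σ ^ n / κ) ^ m ≤ κ ^ m * dB (pl L n) := mul_le_mul_of_nonneg_left hlow (pow_pos hκ0 m).le
    refine h1.trans (mul_le_mul_of_nonneg_right ?_ (hdB _))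
    linarith

end

end Pool.Agent.VD
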