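import Mathlib
import Pool.Agent.helper99.VD.SpecU

/-!
# RCLA (project VD, MP_07c750_an): two chains with the same state stay close, and close chains have the same `γ`
-/

set_option autoImplicit false

open scoped ENNReal
open MeasureTheory Filter Set

namespace Pool.Agent.VD

noncomputable section

theorem RCLA_en {Γ X S : Type} [Group Γ] [MulAction Γ X] [MulAction Γ S] {C c0 : ℝ} {Y : SY X S} {t r : ℝ} {N : ℕ} {w : ℕ → S}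
    (hO : OKS Γ C c0 Y) (hN : 1 ≤ N) (hr : r ≤ c0) (ht : 1 ≤ t) (hw : JPA Y t r N w) {s : ℝ} (hs0 : 0 ≤ s) (hs : s ≤ N * t) :
    |Y.En (frA Y t w s)| ≤ c0 := by
  have ht0 : 0 < t := by linarith
  have hk : ⌊s / t⌋₊ ≤ N := by
    have h1 : s / t ≤ N := by rw [div_le_iff₀ ht0]; exact hs
    exact Nat.floor_le_of_le h1
  have hv : |Y.En (w ⌊s / t⌋₊)| ≤ c0 := by
    rcases Nat.lt_or_ge ⌊s / t⌋₊ N with h | h
    · exact (hw _ h).2.1.trans hr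
    · have h2 : ⌊s / t⌋₊ = (N - 1) + 1 := by omega
      rw [h2]
      exact (hw (N - 1) (by omega)).2.2.trans hr
  unfold frA
  rw [hO.Enf _ _ hv]
  exact hv

theorem RCLA_enb {Γ X S : Type} [Group Γ] [MulAction Γ X] [MulAction Γ S] {C c0 : ℝ} {Y : SY X S}
    (hO : OKS Γ C c0 Y) (b : Bool) (p : S) : Y.En (rvb Y b p) = Y.En p := by
  cases b
  · simp [rvb]
  · simp [rvb, hO.Enr]

theorem RCLA_gb {Γ X S : Type} [Group Γ] [MulAction Γ X] [MulAction Γ S] {C c0 : ℝ} {Y : SY X S}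
    (hO : OKS Γ C c0 Y) (b : Bool) (γ : Γ) (p : S) : rvb Y b (γ • p) = γ • rvb Y b p := by
  cases b
  · simp [rvb]
  · simp [rvb, hO.rvg]

theorem RCLA_psb {Γ X S : Type} [Group Γ] [MulAction Γ X] [MulAction Γ S] {C c0 : ℝ} {Y : SY X S}
    (hO : OKS Γ C c0 Y) (b : Bool) (p : S) : Y.ps (rvb Y b p) = Y.ps p := by
  cases b
  · simp [rvb]
  · simp [rvb, hO.psr]

/-- `fl v (rvb b (γ • fl u z))` is close to `fl v (rvb b (γ • z))` -/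
theorem RCLA_mid {Γ X S : Type} [Group Γ] [MulAction Γ X] [MulAction Γ S] {C c0 : ℝ} {Y : SY X S}
    (hO : OKS Γ C c0 Y) (b : Bool) (γ : Γ) {z : S} (hz : |Y.En z| ≤ c0) {u v : ℝ} (hu0 : 0 ≤ u) (hu1 : u ≤ 1) :
    Y.dS (Y.fl v (rvb Y b (γ • z))) (Y.fl v (rvb Y b (γ • Y.fl u z))) ≤ C * u := by
  have hg : |Y.En (γ • z)| ≤ c0 := by rw [hO.Eng]; exact hz
  rw [← hO.flg γ u z hz]
  cases b
  · have e1 : ∀ p, rvb Y false p = p := fun p => by simp [rvb]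
    rw [e1, e1, ← hO.fla v u _ hg, add_comm v u, hO.fla u v _ hg]
    have h1 := hO.sho (Y.fl v (γ • z)) u (by rw [hO.Enf _ _ hg]; exact hg) (by rw [abs_of_nonneg hu0]; exact hu1)
    rwa [abs_of_nonneg hu0] at h1
  · have e1 : ∀ p, rvb Y true p = Y.rv p := fun p => by simp [rvb]
    have hr : |Y.En (Y.rv (γ • z))| ≤ c0 := by rw [hO.Enr]; exact hg
    have e2 : Y.rv (Y.fl u (γ • z)) = Y.fl (-u) (Y.rv (γ • z)) := by
      rw [hO.flr (-u) _ hg, neg_neg]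
    rw [e1, e1, e2, ← hO.fla v (-u) _ hr, add_comm v (-u), hO.fla (-u) v _ hr]
    have h1 := hO.sho (Y.fl v (Y.rv (γ • z))) (-u) (by rw [hO.Enf _ _ hr]; exact hr) (by rw [abs_neg, abs_of_nonneg hu0]; exact hu1)
    rwa [abs_neg, abs_of_nonneg hu0] at h1

/-- the case `s' ≤ s''` -/
theorem RCLA_main {Γ X S : Type} [Group Γ] [MulAction Γ X] [MulAction Γ S] {C c0 : ℝ} {Y : SY X S} (hO : OKS Γ C c0 Y)
    {A C2 δ ρ1 t r e1 Λ E : ℝ} {N : ℕ} {w w' w'' : ℕ → S} (hC : 1 ≤ C) (hA : 1 ≤ A) (hE : E ≤ δ)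
    (hCe : C * e1 ≤ δ) (he1 : e1 ≤ 1) (hCρ : Real.exp A ≤ ρ1 ^ (-(1 / 2) : ℝ)) (hN : 1 ≤ N)
    (h1 : ∀ (p q : S) (s : ℝ), |Y.En p| ≤ c0 → |Y.En q| ≤ c0 → Real.exp (A * |s|) ≤ ρ1 ^ (-(1 / 2) : ℝ) → Y.dS p q ≤ C2 * ρ1 → Y.dS (Y.fl s p) (Y.fl s q) ≤ E)
    (h2 : ∀ (t r : ℝ) (N : ℕ) (w : ℕ → S), 1 ≤ t → 0 < r → r ≤ ρ1 → 1 ≤ N → JPA Y t r N w → ∀ (s v x : ℝ) (b : Bool), 0 ≤ s → 0 ≤ v → v ≤ t → s + v ≤ N * t → Real.exp (A * v) ≤ ρ1 ^ (-(1 / 2) : ℝ) → Real.exp (A * |x|) ≤ ρ1 ^ (-(1 / 2) : ℝ) → x = 0 ∨ v ≤ 1 →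
      Y.dS (Y.fl x (rvb Y b (frA Y t w (s + v)))) (Y.fl x (rvb Y b (Y.fl v (frA Y t w s)))) ≤ E)
    (hrc : r ≤ c0) (ht : 1 ≤ t) (hr0 : 0 < r) (hr : r ≤ ρ1) (hw : JPA Y t r N w) (hw' : JPA Y t r N w') (hw'' : JPA Y t r N w'')
    {i : ℕ} {v : ℝ} {γ : Γ} {b : Bool} {s' s'' : ℝ} (hΛ : 0 < Λ) (hΛt : Λ ≤ t) (hΛC : Real.exp (A * Λ) ≤ ρ1 ^ (-(1 / 2) : ℝ)) (hv0 : 0 ≤ v) (hv : v ≤ Λ) (hiv : i * Λ + v ≤ N * t)
    (hs0 : 0 ≤ s') (hss : s' ≤ s'') (hs1 : s'' < N * t) (hsd : s'' - s' < e1)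
    (hn' : Y.dS (frA Y t w' (i * Λ)) (rvb Y b (γ • frA Y t w s')) ≤ C2 * ρ1)
    (hn'' : Y.dS (frA Y t w'' (i * Λ)) (rvb Y b (γ • frA Y t w s'')) ≤ C2 * ρ1) :
    Y.dS (frA Y t w' (i * Λ + v)) (frA Y t w'' (i * Λ + v)) ≤ 6 * δ := by
  have hiΛ : (0 : ℝ) ≤ i * Λ := mul_nonneg (Nat.cast_nonneg _) hΛ.le
  have hCv : Real.exp (A * v) ≤ ρ1 ^ (-(1 / 2) : ℝ) :=
    (Real.exp_le_exp.2 (mul_le_mul_of_nonneg_left hv (by linarith))).trans hΛC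
  have hCv' : Real.exp (A * |v|) ≤ ρ1 ^ (-(1 / 2) : ℝ) := by rwa [abs_of_nonneg hv0]
  have hC0 : Real.exp (A * |(0 : ℝ)|) ≤ ρ1 ^ (-(1 / 2) : ℝ) := by
    rw [abs_zero]
    exact (Real.exp_le_exp.2 (mul_le_mul_of_nonneg_left hv0 (by linarith))).trans hCv
  have hu0 : 0 ≤ s'' - s' := by linarith
  have hu1 : s'' - s' ≤ 1 := by linarith
  have hEn : ∀ w0 : ℕ → S, JPA Y t r N w0 → ∀ s : ℝ, 0 ≤ s → s ≤ N * t → |Y.En (frA Y t w0 s)| ≤ c0 :=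
    fun w0 h0 s hs hs' => RCLA_en hO hN hrc ht h0 hs hs'
  have hEf : ∀ w0 : ℕ → S, JPA Y t r N w0 → ∀ s u : ℝ, 0 ≤ s → s ≤ N * t → |Y.En (Y.fl u (frA Y t w0 s))| ≤ c0 := by
    intro w0 h0 s u hs hs'
    rw [hO.Enf _ _ (hEn w0 h0 s hs hs')]
    exact hEn w0 h0 s hs hs'
  have hEg : ∀ s : ℝ, 0 ≤ s → s ≤ N * t → |Y.En (rvb Y b (γ • frA Y t w s))| ≤ c0 := by
    intro s hs hs'
    rw [RCLA_enb hO, hO.Eng]
    exact hEn w hw s hs hs'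
  have step : ∀ w0 : ℕ → S, JPA Y t r N w0 → Y.dS (frA Y t w0 (i * Λ + v)) (Y.fl v (frA Y t w0 (i * Λ))) ≤ E := by
    intro w0 hw0
    have a1 := h2 t r N w0 ht hr0 hr hN hw0 (i * Λ) v 0 false hiΛ hv0 (hv.trans hΛt) hiv hCv hC0 (Or.inl rfl)
    have e1 : ∀ p, rvb Y false p = p := fun p => by simp [rvb]
    rw [e1, e1, hO.fl0 _ (hEn w0 hw0 _ (by linarith) hiv), hO.fl0 _ (hEf w0 hw0 _ _ hiΛ (by linarith))] at a1
    exact a1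
  have j1 := step w' hw'
  have j6 := step w'' hw''
  rw [hO.dSs] at j6
  have j2 := h1 _ _ v (hEn w' hw' (i * Λ) hiΛ (by linarith)) (hEg s' hs0 (by linarith)) hCv' hn'
  have j5 := h1 _ _ v (hEn w'' hw'' (i * Λ) hiΛ (by linarith)) (hEg s'' (by linarith) (by linarith)) hCv' hn''
  rw [hO.dSs] at j5
  have j3 := RCLA_mid hO b γ (hEn w hw s' hs0 (by linarith)) (v := v) hu0 hu1
  have j3' : C * (s'' - s') ≤ δ := (mul_le_mul_of_nonneg_left hsd.le (by linarith)).trans hCe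
  have j4 : Y.dS (Y.fl v (rvb Y b (γ • Y.fl (s'' - s') (frA Y t w s')))) (Y.fl v (rvb Y b (γ • frA Y t w s''))) ≤ E := by
    have hCu : Real.exp (A * (s'' - s')) ≤ ρ1 ^ (-(1 / 2) : ℝ) := by
      refine le_trans (Real.exp_le_exp.2 ?_) hCρ
      nlinarith
    have a1 := h2 t r N w ht hr0 hr hN hw s' (s'' - s') v b hs0 hu0 (by linarith) (by linarith) hCu hCv' (Or.inr hu1)
    rw [show s' + (s'' - s') = s'' by ring] at a1
    rw [RCLA_gb hO, RCLA_gb hO, hO.flg, hO.flg, hO.dSi, hO.dSs]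
    · exact a1
    · rw [RCLA_enb hO]; exact hEn w hw s'' (by linarith) (by linarith)
    · rw [RCLA_enb hO]; exact hEf w hw s' _ hs0 (by linarith)
  have t1 := hO.dSt (frA Y t w' (i * Λ + v)) (Y.fl v (frA Y t w' (i * Λ))) (frA Y t w'' (i * Λ + v))
  have t2 := hO.dSt (Y.fl v (frA Y t w' (i * Λ))) (Y.fl v (rvb Y b (γ • frA Y t w s'))) (frA Y t w'' (i * Λ + v))
  have t3 := hO.dSt (Y.fl v (rvb Y b (γ • frA Y t w s'))) (Y.fl v (rvb Y b (γ • Y.fl (s'' - s') (frA Y t w s')))) (frA Y t w'' (i * Λ + v))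
  have t4 := hO.dSt (Y.fl v (rvb Y b (γ • Y.fl (s'' - s') (frA Y t w s')))) (Y.fl v (rvb Y b (γ • frA Y t w s''))) (frA Y t w'' (i * Λ + v))
  have t5 := hO.dSt (Y.fl v (rvb Y b (γ • frA Y t w s''))) (Y.fl v (frA Y t w'' (i * Λ))) (frA Y t w'' (i * Λ + v))
  linarith

/-- the feet of the two states are close -/
theorem RCLA_feet {Γ X S : Type} [Group Γ] [MulAction Γ X] [MulAction Γ S] {C c0 : ℝ} {Y : SY X S} (hO : OKS Γ C c0 Y)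
    {A δ ρ1 t r e1 E : ℝ} {N : ℕ} {w : ℕ → S} (hC : 1 ≤ C) (hA : 1 ≤ A) (hE : E ≤ δ) (hCe : C * e1 ≤ δ) (he1 : e1 ≤ 1)
    (hCρ : Real.exp A ≤ ρ1 ^ (-(1 / 2) : ℝ)) (hN : 1 ≤ N)
    (h2 : ∀ (t r : ℝ) (N : ℕ) (w : ℕ → S), 1 ≤ t → 0 < r → r ≤ ρ1 → 1 ≤ N → JPA Y t r N w → ∀ (s v x : ℝ) (b : Bool), 0 ≤ s → 0 ≤ v → v ≤ t → s + v ≤ N * t → Real.exp (A * v) ≤ ρ1 ^ (-(1 / 2) : ℝ) → Real.exp (A * |x|) ≤ ρ1 ^ (-(1 / 2) : ℝ) → x = 0 ∨ v ≤ 1 →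
      Y.dS (Y.fl x (rvb Y b (frA Y t w (s + v)))) (Y.fl x (rvb Y b (Y.fl v (frA Y t w s)))) ≤ E)
    (hrc : r ≤ c0) (ht : 1 ≤ t) (hr0 : 0 < r) (hr : r ≤ ρ1) (hw : JPA Y t r N w)
    {s' s'' : ℝ} (hs0 : 0 ≤ s') (hss : s' ≤ s'') (hs1 : s'' < N * t) (hsd : s'' - s' < e1) :
    Y.dX (Y.ps (frA Y t w s')) (Y.ps (frA Y t w s'')) ≤ C * (2 * δ) := by
  have hu0 : 0 ≤ s'' - s' := by linarith
  have hu1 : s'' - s' ≤ 1 := by linarith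
  have hCu : Real.exp (A * (s'' - s')) ≤ ρ1 ^ (-(1 / 2) : ℝ) := by
    refine le_trans (Real.exp_le_exp.2 ?_) hCρ
    nlinarith
  have hC0 : Real.exp (A * |(0 : ℝ)|) ≤ ρ1 ^ (-(1 / 2) : ℝ) := by
    rw [abs_zero]
    refine le_trans (Real.exp_le_exp.2 ?_) hCρ
    linarith
  have a1 := h2 t r N w ht hr0 hr hN hw s' (s'' - s') 0 false hs0 hu0 (by linarith) (by linarith) hCu hC0 (Or.inl rfl)
  rw [show s' + (s'' - s') = s'' by ring] at a1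
  have e1' : ∀ p, rvb Y false p = p := fun p => by simp [rvb]
  have hEs : |Y.En (frA Y t w s')| ≤ c0 := RCLA_en hO hN hrc ht hw hs0 (by linarith)
  have hEt : |Y.En (frA Y t w s'')| ≤ c0 := RCLA_en hO hN hrc ht hw (by linarith) (by linarith)
  rw [e1', e1', hO.fl0 _ hEt, hO.fl0 _ (by rw [hO.Enf _ _ hEs]; exact hEs), hO.dSs] at a1
  have a2 := hO.sho (frA Y t w s') (s'' - s') hEs (by rw [abs_of_nonneg hu0]; exact hu1)
  rw [abs_of_nonneg hu0] at a2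
  have a3 : C * (s'' - s') ≤ δ := (mul_le_mul_of_nonneg_left hsd.le (by linarith)).trans hCe
  have a4 := hO.dSt (frA Y t w s') (Y.fl (s'' - s') (frA Y t w s')) (frA Y t w s'')
  refine (hO.psd _ _).trans (mul_le_mul_of_nonneg_left ?_ (by linarith))
  linarith

theorem RCLA_proof (hCNVA : CNVA_stmt) : RCLA_stmt := by
  intro C c0 hC hc0 hc1
  obtain ⟨A, hA, hCN⟩ := hCNVA C c0 hC hc0 hc1
  refine ⟨4 * C + A, by linarith, ?_⟩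
  intro eps heps hepc
  obtain ⟨δ, hδ⟩ : ∃ δ : ℝ, δ = eps / 10 := ⟨_, rfl⟩
  have hδ0 : 0 < δ := by rw [hδ]; positivity
  have h5 : 5 * eps ≤ (4 * C + A) * eps := mul_le_mul_of_nonneg_right (by linarith) heps.le
  have heps1 : 5 * eps ≤ 1 := by linarith
  have hC0 : 0 < C := by linarith
  refine ⟨δ / C, by positivity, ?_, ?_⟩
  · rw [div_le_one hC0]
    linarith
  intro C2 hC2
  obtain ⟨C3, ρ0, hC3, hρ0, hρ8, hρc, hN⟩ := hCN C2 hC2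
  refine ⟨min ρ0 (min (Real.exp (-(2 * A))) (min ((δ / C3) ^ 2) (δ / C2))), ?_, (min_le_left _ _).trans hρ8, (min_le_left _ _).trans hρc, ?_⟩
  · have hC3' : 0 < C3 := by linarith
    have hC2' : 0 < C2 := by linarith
    exact lt_min hρ0 (lt_min (Real.exp_pos _) (lt_min (by positivity) (by positivity)))
  intro Γ X S _ _ _ Y ρ1 t r e1 Λ N w w' w'' hO hN1 hr0 hr hρ1 ht he0 he1 hΛ hΛt hΛC hw hw' hw'' i
  have hρp : 0 < ρ1 := lt_of_lt_of_le hr0 hr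
  obtain ⟨c1, c2⟩ := hN Γ X S Y ρ1 hO hρp (hρ1.trans (min_le_left _ _))
  have hρc' : ρ1 ≤ c0 := (hρ1.trans (min_le_left _ _)).trans hρc
  have hrc : r ≤ c0 := hr.trans hρc'
  have hee : ρ1 ≤ Real.exp (-(2 * A)) := hρ1.trans ((min_le_right _ _).trans (min_le_left _ _))
  have hdd : ρ1 ≤ (δ / C3) ^ 2 := hρ1.trans ((min_le_right _ _).trans ((min_le_right _ _).trans (min_le_left _ _)))
  have hd2 : ρ1 ≤ δ / C2 := hρ1.trans ((min_le_right _ _).trans ((min_le_right _ _).trans (min_le_right _ _)))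
  have hCρ : Real.exp A ≤ ρ1 ^ (-(1 / 2) : ℝ) := by
    have h1 : (Real.exp (-(2 * A))) ^ (-(1 / 2) : ℝ) ≤ ρ1 ^ (-(1 / 2) : ℝ) :=
      Real.rpow_le_rpow_of_nonpos hρp hee (by norm_num)
    have h2 : (Real.exp (-(2 * A))) ^ (-(1 / 2) : ℝ) = Real.exp A := by
      rw [← Real.exp_mul]
      congr 1
      ring
    rwa [h2] at h1
  have hE : C3 * ρ1 ^ (1 / 2 : ℝ) ≤ δ := by
    have h1 : ρ1 ^ (1 / 2 : ℝ) ≤ δ / C3 := by
      rw [← Real.sqrt_eq_rpow]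
      refine (Real.sqrt_le_sqrt hdd).trans ?_
      rw [Real.sqrt_sq (div_nonneg hδ0.le (by linarith))]
    have h2 : C3 * ρ1 ^ (1 / 2 : ℝ) ≤ C3 * (δ / C3) := mul_le_mul_of_nonneg_left h1 (by linarith)
    rwa [mul_div_cancel₀ _ (by linarith : C3 ≠ 0)] at h2
  have hC2ρ : C2 * ρ1 ≤ δ := by
    have h1 : C2 * ρ1 ≤ C2 * (δ / C2) := mul_le_mul_of_nonneg_left hd2 (by linarith)
    rwa [mul_div_cancel₀ _ (by linarith : C2 ≠ 0)] at h1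
  have hCe : C * e1 ≤ δ := by
    have h1 : C * e1 ≤ C * (δ / C) := mul_le_mul_of_nonneg_left he1 (by linarith)
    rwa [mul_div_cancel₀ _ (by linarith : C ≠ 0)] at h1
  have he11 : e1 ≤ 1 := by nlinarith
  have hΛA : Real.exp (A * Λ) ≤ ρ1 ^ (-(1 / 2) : ℝ) := by
    refine le_trans (Real.exp_le_exp.2 ?_) hΛC
    exact mul_le_mul_of_nonneg_right (by linarith) hΛ.le
  have key : ∀ x y : ℝ, 0 ≤ x → 0 ≤ y → ⌊x / e1⌋₊ = ⌊y / e1⌋₊ → y - x < e1 := by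
    intro x y hx hy hxy
    have h1 : (⌊x / e1⌋₊ : ℝ) ≤ x / e1 := Nat.floor_le (by positivity)
    have h2 : y / e1 < ⌊y / e1⌋₊ + 1 := Nat.lt_floor_add_one _
    rw [← hxy] at h2
    rw [le_div_iff₀ he0] at h1
    rw [div_lt_iff₀ he0] at h2
    nlinarith
  constructor
  · intro v a hv0 hv hiv hst' hst''
    obtain ⟨s', hs0', hs1', hf', hn'⟩ := hst'
    obtain ⟨s'', hs0'', hs1'', hf'', hn''⟩ := hst''
    have hfl : ⌊s' / e1⌋₊ = ⌊s'' / e1⌋₊ := by rw [← hf', ← hf'']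
    have h6 : 6 * δ ≤ eps := by linarith
    rcases le_total s' s'' with hss | hss
    · exact (RCLA_main hO hC hA hE hCe he11 hCρ hN1 c1 c2 hrc ht hr0 hr hw hw' hw'' hΛ hΛt hΛA hv0 hv hiv
        hs0' hss hs1'' (key s' s'' hs0' hs0'' hfl) hn' hn'').trans h6
    · rw [hO.dSs]
      exact (RCLA_main hO hC hA hE hCe he11 hCρ hN1 c1 c2 hrc ht hr0 hr hw hw'' hw' hΛ hΛt hΛA hv0 hv hiv
        hs0'' hss hs1' (key s'' s' hs0'' hs0' hfl.symm) hn'' hn').trans h6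
  · intro γ' γ'' n b hiv hst' hst'' hd
    obtain ⟨s', hs0', hs1', hf', hn'⟩ := hst'
    obtain ⟨s'', hs0'', hs1'', hf'', hn''⟩ := hst''
    have hfl : ⌊s' / e1⌋₊ = ⌊s'' / e1⌋₊ := by rw [← hf', ← hf'']
    have hfeet : Y.dX (Y.ps (frA Y t w s')) (Y.ps (frA Y t w s'')) ≤ C * (2 * δ) := by
      rcases le_total s' s'' with hss | hss
      · exact RCLA_feet hO hC hA hE hCe he11 hCρ hN1 c2 hrc ht hr0 hr hw hs0' hss hs1'' (key s' s'' hs0' hs0'' hfl)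
      · rw [hO.dXs]
        exact RCLA_feet hO hC hA hE hCe he11 hCρ hN1 c2 hrc ht hr0 hr hw hs0'' hss hs1' (key s'' s' hs0'' hs0' hfl.symm)
    have a1 := (hO.psd _ _).trans (mul_le_mul_of_nonneg_left (hn'.trans hC2ρ) hC0.le)
    have a2 := (hO.psd _ _).trans (mul_le_mul_of_nonneg_left (hn''.trans hC2ρ) hC0.le)
    have a3 := (hO.psd _ _).trans (mul_le_mul_of_nonneg_left hd hC0.le)
    rw [RCLA_psb hO, hO.psg] at a1 a2
    dsimp only at a1 a2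
    have a4 : Y.dX (γ' • Y.ps (frA Y t w s'')) (γ' • Y.ps (frA Y t w s')) ≤ C * (2 * δ) := by
      rw [hO.dXi, hO.dXs]
      exact hfeet
    have t1 := hO.dXt (γ' • Y.ps (frA Y t w s'')) (γ' • Y.ps (frA Y t w s')) (γ'' • Y.ps (frA Y t w s''))
    have t2 := hO.dXt (γ' • Y.ps (frA Y t w s')) (Y.ps (frA Y t w' (i * Λ))) (γ'' • Y.ps (frA Y t w s''))
    have t3 := hO.dXt (Y.ps (frA Y t w' (i * Λ))) (Y.ps (frA Y t w'' (i * Λ))) (γ'' • Y.ps (frA Y t w s''))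
    rw [hO.dXs] at a1
    have hCA : C * (2 * δ) + C * δ + C * eps + C * δ ≤ c0 := by
      have e0 : C * (2 * δ) + C * δ + C * eps + C * δ = (4 / 10 + 1) * (C * eps) := by rw [hδ]; ring
      have e2 : 4 * (C * eps) + A * eps ≤ c0 := by linarith
      have e3 : 0 < C * eps := by positivity
      have e4 : 0 < A * eps := mul_pos (by linarith) heps
      rw [e0]
      linarith
    have hfin : Y.dX ((γ''⁻¹ * γ') • Y.ps (frA Y t w s'')) (Y.ps (frA Y t w s'')) ≤ c0 := by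
      have e0 : Y.dX ((γ''⁻¹ * γ') • Y.ps (frA Y t w s'')) (Y.ps (frA Y t w s'')) = Y.dX (γ' • Y.ps (frA Y t w s'')) (γ'' • Y.ps (frA Y t w s'')) := by
        rw [← hO.dXi γ'' ((γ''⁻¹ * γ') • Y.ps (frA Y t w s'')), smul_smul, mul_inv_cancel_left]
      rw [e0]
      linarith
    have hone := hO.inj _ _ hfin
    rw [inv_mul_eq_one] at hone
    exact hone.symm

end

end Pool.Agent.VD
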